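import Pool.Agent.Helper15.OS.Same

/-!
OS-MIN.  Labellings with the minimal number of closed loops.
* `P1`: two half-edges of closed loops at one vertex have equal labels.  Proof: if the loops are
  different, exchange the labels: by `dev_swap` both loops open (`sg • (b k - b h) ≠ 0`), the others
  are unchanged, so `ncl` drops by 2.  If lp h = lp k and h ≠ k, the loop is an edge (a triple has
  its half-edges at different vertices), signs are opposite; exchanging the two labels changes dev by
  `sg h • (b k - b h) + sg k • (b h - b k) = 2 * sg h • (b k - b h) ≠ 0` (no 2-torsion): ncl drops.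
* `move`: h on a closed loop, k at the same vertex with another label.  By P1 the loop of k is not
  closed (so it is another loop).  After the exchange the loop of h is open; by minimality the loop
  of k must be closed; `ncl` is the same, so the new labelling is minimal, too.
-/

namespace Pool.Agent.Helper15.OS

open Finset
open scoped Classical

variable {A V H L : Type*} [AddCommGroup A] [Fintype H] [Fintype L]

/-- if the loop of `h` opens and every closed loop of `b'` is closed for `b`, `ncl` drops -/
theorem ncl_lt_of_open {S : Sys A V H L} {b b' : H → A} {l0 : L} (h0 : dev S b l0 = 0)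
    (h0' : dev S b' l0 ≠ 0) (hs : ∀ l, dev S b' l = 0 → dev S b l = 0) :
    ncl S b' < ncl S b := by
  unfold ncl
  apply card_lt_card
  rw [ssubset_iff_of_subset]
  · exact ⟨l0, by simp [h0], by simp [h0']⟩
  · intro l hl
    simp only [mem_filter, mem_univ, true_and] at hl ⊢
    exact hs l hl

theorem P1 {S : Sys A V H L} (hS : Good S) {b : H → A} (hb : Min S b) {h k : H}
    (hv : S.vx h = S.vx k) (hh : dev S b (S.lp h) = 0) (hk : dev S b (S.lp k) = 0) :
    b h = b k := by
  by_contra hne
  have hmin := hb _ (same_swap b hv)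
  refine absurd hmin (not_le.mpr ?_)
  by_cases hl : S.lp h = S.lp k
  · -- the same loop: an edge
    have hhk : h ≠ k := fun e => hne (by rw [e])
    have hedge : IsEdge S (S.lp h) := by
      rcases hS.typ (S.lp h) with he | ht
      · exact he
      · exact absurd hv (triple_pair ht hl.symm hhk).1
    have hsg := (edge_pair hedge hl.symm hhk).1
    have hsgk : S.sg k = - S.sg h := by linarith
    refine ncl_lt_of_open (l0 := S.lp h) hh ?_ ?_
    · rw [dev_swap, hh, if_pos rfl, if_pos hl.symm, hsgk]
      intro h0
      have h1 : S.sg h • (b k - b h) + S.sg h • (b k - b h) = 0 := by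
        have e : -S.sg h • (b h - b k) = S.sg h • (b k - b h) := by
          rw [neg_smul, ← smul_neg, neg_sub]
        rw [e, zero_add] at h0
        exact h0
      have h2 := sg_smul_eq_zero hS h (hS.two _ h1)
      exact hne (sub_eq_zero.mp h2).symm
    · intro l hl0
      by_cases hlh : l = S.lp h
      · rw [hlh]; exact hh
      · rw [dev_swap, if_neg (fun e => hlh e.symm), if_neg (fun e => hlh (by rw [← e, hl]))] at hl0
        simpa using hl0
  · refine ncl_lt_of_open (l0 := S.lp h) hh ?_ ?_
    · rw [dev_swap, hh, if_pos rfl, if_neg (fun e => hl e.symm)]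
      intro h0
      rw [zero_add, add_zero] at h0
      have h2 := sg_smul_eq_zero hS h h0
      exact hne (sub_eq_zero.mp h2).symm
    · intro l hl0
      by_cases hlh : l = S.lp h
      · rw [hlh]; exact hh
      · by_cases hlk : l = S.lp k
        · rw [hlk]; exact hk
        · rw [dev_swap, if_neg (fun e => hlh e.symm), if_neg (fun e => hlk e.symm)] at hl0
          simpa using hl0

theorem min_of_same_ncl {S : Sys A V H L} {b b' : H → A} (hb : Min S b) (h : Same S b b')
    (hn : ncl S b' ≤ ncl S b) : Min S b' :=
  fun b'' h'' => hn.trans (hb b'' (same_trans h h''))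

theorem move {S : Sys A V H L} (hS : Good S) {b : H → A} (hb : Min S b) {h k : H}
    (hv : S.vx h = S.vx k) (hh : dev S b (S.lp h) = 0) (hn : b h ≠ b k) :
    S.lp h ≠ S.lp k ∧ dev S b (S.lp k) ≠ 0 ∧ Step S b (b ∘ Equiv.swap h k) ∧
      Same S b (b ∘ Equiv.swap h k) ∧ Min S (b ∘ Equiv.swap h k) ∧
      dev S (b ∘ Equiv.swap h k) (S.lp k) = 0 ∧ dev S (b ∘ Equiv.swap h k) (S.lp h) ≠ 0 ∧
      ∀ l, l ≠ S.lp h → l ≠ S.lp k → dev S (b ∘ Equiv.swap h k) l = dev S b l := by
  have hk : dev S b (S.lp k) ≠ 0 := fun hk => hn (P1 hS hb hv hh hk)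
  have hl : S.lp h ≠ S.lp k := fun e => hk (by rw [← e]; exact hh)
  have hsame : Same S b (b ∘ Equiv.swap h k) := same_swap b hv
  have hother : ∀ l, l ≠ S.lp h → l ≠ S.lp k → dev S (b ∘ Equiv.swap h k) l = dev S b l := by
    intro l h1 h2
    rw [dev_swap, if_neg (fun e => h1 e.symm), if_neg (fun e => h2 e.symm), add_zero, add_zero]
  have hopen : dev S (b ∘ Equiv.swap h k) (S.lp h) ≠ 0 := by
    rw [dev_swap, hh, if_pos rfl, if_neg (fun e => hl e.symm)]
    intro h0
    rw [zero_add, add_zero] at h0
    exact hn (sub_eq_zero.mp (sg_smul_eq_zero hS h h0)).symm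
  have hclosed : dev S (b ∘ Equiv.swap h k) (S.lp k) = 0 := by
    by_contra hc
    refine absurd (hb _ hsame) (not_le.mpr (ncl_lt_of_open (l0 := S.lp h) hh hopen ?_))
    intro l hl0
    have h1 : l ≠ S.lp h := fun e => hopen (by rw [← e]; exact hl0)
    have h2 : l ≠ S.lp k := fun e => hc (by rw [← e]; exact hl0)
    rw [← hother l h1 h2]; exact hl0
  refine ⟨hl, hk, ⟨h, k, hv, hl, hn, hh, rfl⟩, hsame, ?_, hclosed, hopen, hother⟩
  refine min_of_same_ncl hb hsame ?_
  unfold ncl
  have hset : (univ.filter fun l => dev S (b ∘ Equiv.swap h k) l = 0) ⊆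
      insert (S.lp k) ((univ.filter fun l => dev S b l = 0).erase (S.lp h)) := by
    intro l hl0
    simp only [mem_filter, mem_univ, true_and, mem_insert, mem_erase] at hl0 ⊢
    by_cases h2 : l = S.lp k
    · exact Or.inl h2
    · have h1 : l ≠ S.lp h := fun e => hopen (by rw [← e]; exact hl0)
      exact Or.inr ⟨h1, by rw [← hother l h1 h2]; exact hl0⟩
  refine (card_le_card hset).trans ((card_insert_le _ _).trans ?_)
  have hmem : S.lp h ∈ (univ.filter fun l => dev S b l = 0) := by simp [hh]
  have := card_erase_of_mem hmem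
  have hpos := card_pos.mpr ⟨_, hmem⟩
  omega

end Pool.Agent.Helper15.OS
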