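import Pool.Agent.Helper15.OS.ForestL
import Pool.Agent.Helper15.OS.MinL

/-!
OS-EXT.  The initial forest (roots only) and the extension by one child.
`forest_init`: X = image of the half-edges of closed loops under vx; arr v = some half-edge at v on a
closed loop (choice; for v ∉ X anything, H is nonempty); anc v = {v}, rt = arr, pi = 1, hp = arr.
There are no children.
`forest_ext`: new vertex v = vx a ∉ X, X' = insert v X, all functions updated at v (Function.update):
arr v = a, hp v = k, anc v = insert v (anc u), rt v = rt u, pi v = pi u * swap (arr u) k with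
u = vx k.  All vertices occurring in the conditions for old vertices are in X, hence ≠ v.
`forest_max`: there is a forest with X of maximal cardinality (X is contained in the image of vx,
card X ≤ card H), so no extension is possible.
-/

namespace Pool.Agent.Helper15.OS

open Finset
open scoped Classical

variable {A V H L : Type*} [AddCommGroup A] [Fintype H] [Fintype L]

theorem forest_init [Nonempty H] {S : Sys A V H L} (b : H → A) : Nonempty (Forest S b) := by
  let P : V → Prop := fun v => ∃ h, S.vx h = v ∧ dev S b (S.lp h) = 0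
  let ar : V → H := fun v => if hv : P v then hv.choose else Classical.arbitrary H
  let X : Finset V := (univ.filter fun h : H => dev S b (S.lp h) = 0).image S.vx
  have hX : ∀ v, v ∈ X ↔ P v := by
    intro v
    simp only [X, P, mem_image, mem_filter, mem_univ, true_and]
    constructor
    · rintro ⟨h, h1, h2⟩; exact ⟨h, h2, h1⟩
    · rintro ⟨h, h1, h2⟩; exact ⟨h, h2, h1⟩
  have har : ∀ v, P v → S.vx (ar v) = v ∧ dev S b (S.lp (ar v)) = 0 := by
    intro v hv
    have : ar v = hv.choose := dif_pos hv
    rw [this]
    exact hv.choose_spec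
  refine ⟨{ X := X
            arr := ar
            hp := ar
            anc := fun v => {v}
            rt := ar
            pi := fun _ => 1
            arr_vx := ?_
            closed_mem := ?_
            root := ?_
            child := ?_
            anc_sub := ?_
            inj := ?_
            typ := ?_ }⟩
  · intro v hv
    exact (har v ((hX v).1 hv)).1
  · intro h hh
    have hp : P (S.vx h) := ⟨h, rfl, hh⟩
    exact ⟨(hX _).2 hp, (har _ hp).2⟩
  · intro v _ _
    exact ⟨rfl, rfl, rfl⟩
  · intro v hv hne
    exact absurd (har v ((hX v).1 hv)).2 hne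
  · intro v hv
    simpa using hv
  · intro v hv w _ hne
    exact absurd (har v ((hX v).1 hv)).2 hne
  · intro v hv hne
    exact absurd (har v ((hX v).1 hv)).2 hne

theorem forest_ext {S : Sys A V H L} {b : H → A} (F : Forest S b) {a k : H}
    (ha : S.vx a ∉ F.X) (hk : S.vx k ∈ F.X) (hl : S.lp k = S.lp a)
    (hbad : b k ≠ b (F.arr (S.vx k))) (hop : dev S b (S.lp a) ≠ 0)
    (hnew : ∀ w ∈ F.X, S.lp (F.arr w) ≠ S.lp a)
    (htyp : ∀ h, S.lp h = S.lp a → h ≠ a → h ≠ k → T1 S b a →
      T1 S b h ∨ (S.vx h ∈ F.X ∧ b h ≠ b (F.arr (S.vx h)))) :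
    ∃ F' : Forest S b, F'.X = insert (S.vx a) F.X := by
  have hne : ∀ w ∈ F.X, w ≠ S.vx a := by
    rintro w hw rfl
    exact ha hw
  have e1 : ∀ w ∈ F.X, Function.update F.arr (S.vx a) a w = F.arr w := fun w hw =>
    Function.update_of_ne (hne w hw) _ _
  have e2 : ∀ w ∈ F.X, Function.update F.hp (S.vx a) k w = F.hp w := fun w hw =>
    Function.update_of_ne (hne w hw) _ _
  have e3 : ∀ w ∈ F.X, Function.update F.anc (S.vx a) (insert (S.vx a) (F.anc (S.vx k))) w
      = F.anc w := fun w hw => Function.update_of_ne (hne w hw) _ _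
  have e4 : ∀ w ∈ F.X, Function.update F.rt (S.vx a) (F.rt (S.vx k)) w = F.rt w := fun w hw =>
    Function.update_of_ne (hne w hw) _ _
  have e5 : ∀ w ∈ F.X, Function.update F.pi (S.vx a)
      (F.pi (S.vx k) * Equiv.swap (F.arr (S.vx k)) k) w = F.pi w := fun w hw =>
    Function.update_of_ne (hne w hw) _ _
  have hanc : ∀ w ∈ F.X, S.vx a ∉ F.anc w := fun w hw h => ha (F.anc_sub w hw h)
  refine ⟨{ X := insert (S.vx a) F.X,
            arr := Function.update F.arr (S.vx a) a,
            hp := Function.update F.hp (S.vx a) k,
            anc := Function.update F.anc (S.vx a) (insert (S.vx a) (F.anc (S.vx k))),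
            rt := Function.update F.rt (S.vx a) (F.rt (S.vx k)),
            pi := Function.update F.pi (S.vx a)
              (F.pi (S.vx k) * Equiv.swap (F.arr (S.vx k)) k),
            arr_vx := ?_, closed_mem := ?_, root := ?_, child := ?_, anc_sub := ?_, inj := ?_,
            typ := ?_ }, rfl⟩
  · intro v hv
    rcases mem_insert.1 hv with rfl | hv
    · rw [Function.update_self]
    · rw [e1 v hv]; exact F.arr_vx v hv
  · intro h hh
    obtain ⟨h1, h2⟩ := F.closed_mem h hh
    refine ⟨mem_insert_of_mem h1, ?_⟩
    rw [e1 _ h1]; exact h2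
  · intro v hv h0
    rcases mem_insert.1 hv with rfl | hv
    · rw [Function.update_self] at h0
      exact absurd h0 hop
    · rw [e1 v hv] at h0
      rw [e3 v hv, e4 v hv, e5 v hv, e1 v hv]
      exact F.root v hv h0
  · intro v hv h0
    rcases mem_insert.1 hv with rfl | hv
    · rw [Function.update_self (f := F.hp), Function.update_self (f := F.arr),
        Function.update_self (f := F.anc), Function.update_self (f := F.rt),
        Function.update_self (f := F.pi), e1 _ hk, e3 _ hk, e4 _ hk, e5 _ hk]
      exact ⟨hl, mem_insert_of_mem hk, hbad, rfl, hanc _ hk, rfl, rfl⟩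
    · rw [e1 v hv] at h0
      obtain ⟨c1, c2, c3, c4, c5, c6, c7⟩ := F.child v hv h0
      rw [e2 v hv, e1 v hv, e3 v hv, e4 v hv, e5 v hv, e1 _ c2, e3 _ c2, e4 _ c2, e5 _ c2]
      exact ⟨c1, mem_insert_of_mem c2, c3, c4, c5, c6, c7⟩
  · intro v hv
    rcases mem_insert.1 hv with rfl | hv
    · rw [Function.update_self]
      exact insert_subset_insert _ (F.anc_sub _ hk)
    · rw [e3 v hv]
      exact (F.anc_sub v hv).trans (subset_insert _ _)
  · intro v hv w hw h0 he
    rcases mem_insert.1 hv with rfl | hv
    · rcases mem_insert.1 hw with rfl | hw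
      · rfl
      · rw [Function.update_self, e1 w hw] at he
        exact absurd he.symm (hnew w hw)
    · rcases mem_insert.1 hw with rfl | hw
      · rw [Function.update_self, e1 v hv] at he
        exact absurd he (hnew v hv)
      · rw [e1 v hv] at h0 he
        rw [e1 w hw] at he
        exact F.inj v hv w hw h0 he
  · intro v hv h0 h hlh hne1 hne2 ht
    rcases mem_insert.1 hv with rfl | hv
    · rw [Function.update_self] at hlh hne1 hne2 ht
      rcases htyp h hlh hne1 hne2 ht with h1 | ⟨h1, h2⟩
      · exact Or.inl h1
      · right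
        rw [e1 _ h1, e3 _ h1]
        exact ⟨mem_insert_of_mem h1, h2, hanc _ h1⟩
    · rw [e1 v hv] at h0 hlh hne1 ht
      rw [e2 v hv] at hne2
      rcases F.typ v hv h0 h hlh hne1 hne2 ht with h1 | ⟨h1, h2, h3⟩
      · exact Or.inl h1
      · right
        rw [e1 _ h1, e3 _ h1]
        exact ⟨mem_insert_of_mem h1, h2, h3⟩

theorem forest_max [Nonempty H] {S : Sys A V H L} (b : H → A) :
    ∃ F : Forest S b, ∀ F' : Forest S b, F'.X.card ≤ F.X.card := by
  have hbd : ∀ F : Forest S b, F.X.card ≤ Fintype.card H := by
    intro F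
    have hsub : F.X ⊆ (univ : Finset H).image S.vx := by
      intro v hv
      exact mem_image.2 ⟨F.arr v, mem_univ _, F.arr_vx v hv⟩
    calc F.X.card ≤ ((univ : Finset H).image S.vx).card := card_le_card hsub
      _ ≤ (univ : Finset H).card := card_image_le
      _ = Fintype.card H := rfl
  obtain ⟨F0⟩ := forest_init (S := S) b
  obtain ⟨F, -, hF⟩ := WellFounded.has_min
    (measure fun F : Forest S b => Fintype.card H - F.X.card).wf Set.univ ⟨F0, trivial⟩
  refine ⟨F, fun F' => ?_⟩
  have h1 := hF F' trivial
  have h2 := hbd F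
  have h3 := hbd F'
  have h4 : ¬ (Fintype.card H - F'.X.card < Fintype.card H - F.X.card) := h1
  omega

end Pool.Agent.Helper15.OS
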