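import Pool.Agent.Helper15.OS.Land

/-!
OS-D.  Type 1 criteria.

`T1_of_two_bad`: two different bad half-edges h1, h2 of one loop l (on neither path): T1 b h1.
`land v2 h2` closes l, the label of h1 is unchanged (b h1, `land_else`); `run_spec` for v1: the loop of
arr v1 is closed with label b (arr v1).  `binary` at v1: every label at v1 is b h1 or b (arr v1), and
b (arr v1) = b h1 - sg h1 • dev b l by `resonance` and `smul_sg`.

`dLemma`: w child, g = lp (arr w) a triple; t reachable from b with a closed loop at w whose label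
there is t h ≠ b (arr w), the labels of g in t being those of b.  Then FR b g.  Proof: `move` in t
(h, arr w): g closed in t2 = t ∘ swap h (arr w), so with e = dev b g and the common sign s:
0 = e + s • (t h - b (arr w)), t h = b (arr w) - s • e.  `binary` at w (t, and b ∘ pi w from
`run_spec`): labels at w are t h or b (arr w), and t h is a label at w (`reach_same`, `same_exists`):
T1 b (arr w).  `binary` at u = vx (hp w) (t2 where g is closed with label b (hp w); b ∘ pi u with
label b (arr u)); b (arr u) = b (hp w) - s • e by resonance of `bad_hp`: T1 b (hp w).  Third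
half-edge h3: `F.typ`: T1 b h3, or bad (`bad_third`): b (arr (vx h3)) = b h3 - s • e by resonance and
`binary` (t2 with label b h3; b ∘ pi (vx h3)): T1 b h3.
-/

namespace Pool.Agent.Helper15.OS

open Finset
open scoped Classical

variable {A V H L : Type*} [AddCommGroup A] [Fintype H] [Fintype L]

private theorem T1_of_bad_closed {S : Sys A V H L} (hS : Good S) {b : H → A} (hb : Min S b)
    {F : Forest S b} {v : V} {h : H} (hh : F.Bad v h) {t : H → A} (hR : Reach S b t)
    (hcl : dev S t (S.lp h) = 0) (ht : t h = b h) : T1 S b h := by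
  obtain ⟨hR1, hc1, he1⟩ := run_spec hS hb F hh.mem
  have hres := resonance hS hb hh
  have hval : b h - S.sg h • dev S b (S.lp h) = b (F.arr v) := by
    rw [hres, smul_sg hS]; abel
  have hvx : S.vx h = S.vx (F.arr v) := by rw [hh.vx, F.arr_vx v hh.mem]
  have hbin := binary hS hb hR hR1 hvx hcl hc1 (by rw [ht, he1]; exact hh.ne)
  refine ⟨fun k hk => ?_, F.arr v, hvx.symm, hval.symm⟩
  rw [hval]
  have := hbin k hk
  rwa [ht, he1] at this

theorem T1_of_two_bad {S : Sys A V H L} (hS : Good S) {b : H → A} (hb : Min S b)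
    {F : Forest S b} {v1 v2 : V} {h1 h2 : H} (hh1 : F.Bad v1 h1) (hh2 : F.Bad v2 h2)
    (hl : S.lp h1 = S.lp h2) (hne : h1 ≠ h2) : T1 S b h1 := by
  obtain ⟨hR, -, -, hcl, -, -⟩ := land_spec hS hb hh2
  refine T1_of_bad_closed hS hb hh1 hR (by rw [hl]; exact hcl) ?_
  refine land_else hh2 hne (fun w hw he => ?_) (fun w hw hc he => ?_)
  · exact hh2.off w hw (by rw [← hl, he])
  · have hwX := F.anc_sub v2 hh2.mem hw
    have := (F.child w hwX hc).1
    exact hh2.off w hw (by rw [← hl, he, this])

theorem dLemma {S : Sys A V H L} (hS : Good S) {b : H → A} (hb : Min S b) (F : Forest S b)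
    {w : V} (hw : w ∈ F.X) (hc : dev S b (S.lp (F.arr w)) ≠ 0)
    (hT : IsTriple S (S.lp (F.arr w))) {t : H → A} (hR : Reach S b t) {h : H}
    (hh : S.vx h = w) (hcl : dev S t (S.lp h) = 0) (hn : t h ≠ b (F.arr w))
    (hag : ∀ k, S.lp k = S.lp (F.arr w) → t k = b k) : FR S b (S.lp (F.arr w)) := by
  have hdt : dev S t (S.lp (F.arr w)) = dev S b (S.lp (F.arr w)) := dev_congr S hag
  have hlp : S.lp h ≠ S.lp (F.arr w) := by
    intro he
    rw [he, hdt] at hcl
    exact hc hcl
  have htw : t (F.arr w) = b (F.arr w) := hag _ rfl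
  have hvw : S.vx h = S.vx (F.arr w) := by rw [hh, F.arr_vx w hw]
  have hmt : Min S t := reach_min hS hb hR
  obtain ⟨-, -, hstep, -, -, hcl2, -, -⟩ :=
    move hS hmt (h := h) (k := F.arr w) hvw hcl (by rw [htw]; exact hn)
  have hR2 : Reach S b (t ∘ Equiv.swap h (F.arr w)) := hR.tail hstep
  -- the value of t h
  have hth : t h = b (F.arr w) - S.sg (F.arr w) • dev S b (S.lp (F.arr w)) := by
    have h1 := dev_swap S t h (F.arr w) (S.lp (F.arr w))
    rw [hcl2, if_neg hlp, if_pos rfl, hdt, htw, add_zero] at h1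
    have h2 : S.sg (F.arr w) • (t h - b (F.arr w)) = -dev S b (S.lp (F.arr w)) := by
      rw [eq_neg_iff_add_eq_zero, add_comm]; exact h1.symm
    have h3 := congrArg (fun a => S.sg (F.arr w) • a) h2
    simp only [smul_sg hS, smul_neg] at h3
    rw [sub_eq_iff_eq_add] at h3
    rw [h3]; abel
  -- labels of the loop in t2
  have ht2 : ∀ k, S.lp k = S.lp (F.arr w) → k ≠ F.arr w →
      (t ∘ Equiv.swap h (F.arr w)) k = b k := by
    intro k hk hne
    have hkh : k ≠ h := fun he => hlp (by rw [← he, hk])
    simp only [Function.comp_apply, Equiv.swap_apply_of_ne_of_ne hkh hne]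
    exact hag k hk
  have hT1w : T1 S b (F.arr w) := by
    obtain ⟨hR1, hc1, he1⟩ := run_spec hS hb F hw
    have hbin := binary hS hb hR hR1 hvw hcl hc1 (by rw [he1]; exact hn)
    constructor
    · intro k hk
      have := hbin k (by rw [hk, hvw])
      rw [he1, hth] at this
      exact this.symm
    · obtain ⟨k, hk1, hk2⟩ := same_exists (same_symm (reach_same hR)) (z := w)
        (P := fun a => a = t h) ⟨h, hh, rfl⟩
      exact ⟨k, by rw [hk1, F.arr_vx w hw], by rw [hk2, hth]⟩
  obtain ⟨hp1, hp2, hp3, -, -, -, -⟩ := F.child w hw hc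
  have hpne := F.hp_ne_arr hw hc
  refine ⟨hT, hc, fun k hk => ?_⟩
  by_cases hk1 : k = F.arr w
  · rw [hk1]; exact hT1w
  by_cases hk2 : k = F.hp w
  · rw [hk2]
    exact T1_of_bad_closed hS hb (bad_hp F hw hc) hR2 (by rw [hp1]; exact hcl2)
      (ht2 _ hp1 hpne)
  · rcases F.typ w hw hc k hk hk1 hk2 hT1w with h3 | ⟨h3, h4, h5⟩
    · exact h3
    · exact T1_of_bad_closed hS hb (bad_third F hw hc hk h3 h4 h5) hR2 (by rw [hk]; exact hcl2)
        (ht2 _ hk hk1)

end Pool.Agent.Helper15.OS
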