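import Pool.Agent.Helper15.OS.Land

/-!
OS-ROOTS.  Two bad half-edges of one loop (which is on neither path) belong to the same root loop.
Suppose lp (rt v1) ≠ lp (rt v2).  Then v1 ≠ v2 and anc v1, anc v2 are disjoint (`rt_eq`).
t := land v1 h1.  `run` for v2 from t: the half-edges of the path to v2 are unchanged in t: their
loops are path loops of v2, different from lp h1 = lp h2 (`off`) and from the path loops of v1 (`inj`,
`closed` versus not closed, different root loops), so `land_off` applies; the root loop of v2 is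
closed in t (`land_spec`, it is ≠ lp (rt v1) and ≠ lp h1).  In t' = t ∘ pi v2 the loop of arr v2 is
closed with label b (arr v2) at v2, and lp h1 = lp h2 is still closed (≠ lp (rt v2), ≠ lp (arr v2)),
with label t' h2 = t h2 = b h2 at v2 (`pi_fix`; h2 ≠ h1, `land_else`: half-edges of the path to v1 have
other loops).  P1 in t': b h2 = b (arr v2), contradiction.
-/

namespace Pool.Agent.Helper15.OS

open Finset
open scoped Classical

variable {A V H L : Type*} [AddCommGroup A] [Fintype H] [Fintype L]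

theorem twoRoots {S : Sys A V H L} (hS : Good S) {b : H → A} (hb : Min S b)
    {F : Forest S b} {v1 v2 : V} {h1 h2 : H} (hh1 : F.Bad v1 h1) (hh2 : F.Bad v2 h2)
    (hl : S.lp h1 = S.lp h2) : S.lp (F.rt v1) = S.lp (F.rt v2) := by
  by_contra hne
  -- the two paths are disjoint
  have hdisj : ∀ w, w ∈ F.anc v1 → w ∈ F.anc v2 → False := by
    intro w hw1 hw2
    apply hne
    rw [← F.rt_eq hh1.mem hw1, ← F.rt_eq hh2.mem hw2]
  -- the loops of the two paths are different
  have hloop : ∀ w2 ∈ F.anc v2, ∀ w ∈ F.anc v1, S.lp (F.arr w2) ≠ S.lp (F.arr w) := by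
    intro w2 hw2 w hw he
    by_cases hc : dev S b (S.lp (F.arr w2)) = 0
    · have hc' : dev S b (S.lp (F.arr w)) = 0 := by rw [← he]; exact hc
      apply hne
      rw [← F.root_eq hh1.mem hw hc', ← F.root_eq hh2.mem hw2 hc]
      exact he.symm
    · have := F.inj w2 (F.anc_sub v2 hh2.mem hw2) w (F.anc_sub v1 hh1.mem hw) hc he
      subst this
      exact hdisj w2 hw hw2
  obtain ⟨-, -, htmin, hcl, -, hiff⟩ := land_spec hS hb hh1
  -- unchanged labels on the path to v2
  have hun : ∀ w2 ∈ F.anc v2, ∀ k, S.lp k = S.lp (F.arr w2) → F.land v1 h1 k = b k := by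
    intro w2 hw2 k hk
    apply land_off hh1
    · rw [hk, hl]
      exact (hh2.off w2 hw2).symm
    · intro w hw
      rw [hk]
      exact hloop w2 hw2 w hw
  have hag : ∀ w ∈ F.anc v2, dev S b (S.lp (F.arr w)) ≠ 0 →
      F.land v1 h1 (F.hp w) = b (F.hp w) ∧
        F.land v1 h1 (F.arr (S.vx (F.hp w))) = b (F.arr (S.vx (F.hp w))) := by
    intro w hw hc
    refine ⟨hun w hw _ (F.child w (F.anc_sub v2 hh2.mem hw) hc).1, ?_⟩
    exact hun _ (F.par_mem hh2.mem hw hc).1 _ rfl
  -- the root loop of v2 is different from the loop of h2 and closed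
  have hrt1 : S.lp (F.rt v2) ≠ S.lp h1 := by
    have h := hh2.off _ (F.rt_mem hh2.mem)
    rw [F.arr_rt hh2.mem] at h
    rw [hl]
    exact h.symm
  have hr : dev S (F.land v1 h1) (S.lp (F.rt v2)) = 0 :=
    (hiff _ (fun h => hne h.symm) hrt1).2 (F.rt_closed hh2.mem)
  obtain ⟨-, -, hmin', hcl2, -, hiff'⟩ := run hS F hh2.mem htmin hag hr
  -- the loop of h2 is still closed
  have harr : S.lp h1 ≠ S.lp (F.arr v2) := by
    rw [hl]
    exact hh2.off v2 (F.self_mem hh2.mem)
  have hcl1 : dev S (F.land v1 h1 ∘ F.pi v2) (S.lp h2) = 0 := by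
    rw [← hl]
    exact (hiff' _ (fun h => hrt1 h.symm) harr).2 hcl
  have hP := P1 hS hmin' (h := h2) (k := F.arr v2)
    (by rw [hh2.vx, F.arr_vx v2 hh2.mem]) hcl1 hcl2
  have e1 : F.pi v2 h2 = h2 := F.pi_fix hh2.mem (Or.inr hh2.vx)
  have e2 : F.pi v2 (F.arr v2) = F.arr v2 :=
    F.pi_fix hh2.mem (Or.inr (F.arr_vx v2 hh2.mem))
  have e3 : F.land v1 h1 (F.arr v2) = b (F.arr v2) :=
    hun v2 (F.self_mem hh2.mem) _ rfl
  have e4 : F.land v1 h1 h2 = b h2 := by
    apply land_else hh1
    · intro h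
      apply hdisj v1 (F.self_mem hh1.mem)
      have : v2 = v1 := by rw [← hh2.vx, h, hh1.vx]
      rw [← this]
      exact F.self_mem hh2.mem
    · intro w hw h
      exact hh1.off w hw (by rw [hl, h])
    · intro w hw hc h
      exact hh1.off w hw (by rw [hl, h]; exact (F.child w (F.anc_sub v1 hh1.mem hw) hc).1)
  simp only [Function.comp_apply, e1, e2, e3, e4] at hP
  exact hh2.ne hP

end Pool.Agent.Helper15.OS
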