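import Pool.Agent.Helper15.OS.Five
import Pool.Agent.Helper15.OS.Roots
import Pool.Agent.Helper15.OS.DLem

/-!
OS-SEVEN.  No triple l with three bad half-edges.  Choose two half-edges ha (at a), hb (at vb) of l with
vb ∉ anc a (`anc_antisymm`, two different vertices).  l is FR in b (`T1_of_two_bad` three times, l is
not closed).  t = land a ha; g = lp (arr vb); the labels of g in t: if vb is a child, all as in b
(`land_off`: g is not on the path to a by `inj`, g ≠ l since arr vb is good); if vb is a root then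
arr vb = rt vb, g = lp (rt vb) = lp (rt a) by `twoRoots`, and t (arr vb) = b (arr vb) (`land_else`).
t hb = b hb (`land_else`).  `move` in t (hb, arr vb): t2 = t ∘ swap hb (arr vb): g closed, l open.
l is not FR in t2: labels of l in t2: b (arr a) at ha, b (arr vb) at hb, b hc at the third one; with
e = dev b l = s • (b ha - b (arr a)) = s • (b hb - b (arr vb)): dev t2 l = - e.  T1 b hc gives k at the
vertex of hc with b k = b hc - s • e, T1 t2 hc gives b k = b hc or b k = b hc + s • e: so e = 0 or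
2 e = 0, contradiction.
Other loops l' ≠ l, g: FR t2 l' → FR t l' (`FR_congr`) → l' = root loop or FR b l' (`land_FR`).
(i) vb root: g = root loop, closed in b and in t2; closed loops of t2 and b are the same: `psi_lt'`
with l.  (ii) vb child, g edge: `psi_lt` with r = lp (rt a), g, D = {l}.  (iii) vb child, g triple:
FR b g by `dLemma` (t, hb), D = {l, g}.  All contradict the optimality (t2 is Same and Min).
-/

namespace Pool.Agent.Helper15.OS

open Finset
open scoped Classical

variable {A V H L : Type*} [AddCommGroup A] [Fintype H] [Fintype L]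

theorem seven_aux {S : Sys A V H L} (hS : Good S) {b : H → A} (hb : Opt S b) {F : Forest S b}
    {v1 v2 v3 : V} {h1 h2 h3 : H} (hh1 : F.Bad v1 h1) (hh2 : F.Bad v2 h2) (hh3 : F.Bad v3 h3)
    (hl2 : S.lp h2 = S.lp h1) (hl3 : S.lp h3 = S.lp h1) (h12 : h1 ≠ h2) (h13 : h1 ≠ h3)
    (h23 : h2 ≠ h3) (he : IsTriple S (S.lp h1)) (hv : v2 ∉ F.anc v1) : False := by
  have hbm : Min S b := hb.1
  -- the half-edges of the triple
  obtain ⟨hvx12, hsg12, g0, hg0l, hg01, hg02, hvx01, hvx02, hsg01, hall0⟩ :=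
    triple_pair he hl2 h12
  have hg03 : g0 = h3 := by
    rcases hall0 h3 hl3 with h | h | h
    · exact absurd h.symm h13
    · exact absurd h.symm h23
    · exact h.symm
  subst hg03
  have hall : ∀ k, S.lp k = S.lp h1 ↔ k = h1 ∨ k = h2 ∨ k = g0 := by
    intro k
    constructor
    · exact hall0 k
    · rintro (h | h | h)
      · rw [h]
      · rw [h, hl2]
      · rw [h, hl3]
  -- l is fully resonant in b
  have hT1 : T1 S b h1 := T1_of_two_bad hS hbm hh1 hh2 hl2.symm h12
  have hT2 : T1 S b h2 := T1_of_two_bad hS hbm hh2 hh1 hl2 h12.symm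
  have hT3 : T1 S b g0 := T1_of_two_bad hS hbm hh3 hh1 hl3 h13.symm
  have hop : dev S b (S.lp h1) ≠ 0 := hh1.open' hS hbm
  have hFRl : FR S b (S.lp h1) := by
    refine ⟨he, hop, fun k hk => ?_⟩
    rcases (hall k).mp hk with h | h | h
    · rw [h]; exact hT1
    · rw [h]; exact hT2
    · rw [h]; exact hT3
  -- the landing
  obtain ⟨hRt, hSt, hMt, hlt, hrt, hoth⟩ := land_spec hS hbm hh1
  set t := F.land v1 h1 with ht
  have hv1X : v1 ∈ F.X := hh1.mem
  have hv2X : v2 ∈ F.X := hh2.mem
  have hlpw : ∀ w ∈ F.anc v1, dev S b (S.lp (F.arr w)) ≠ 0 → S.lp (F.hp w) = S.lp (F.arr w) :=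
    fun w hw hc => (F.child w (F.anc_sub v1 hv1X hw) hc).1
  have hth1 : t h1 = b (F.arr v1) := land_h hh1
  have helse : ∀ k, S.lp k = S.lp h1 → k ≠ h1 → t k = b k := by
    intro k hk hk1
    refine land_else hh1 hk1 (fun w hw h => ?_) (fun w hw hc h => ?_)
    · exact hh1.off w hw (by rw [← hk, h])
    · refine hh1.off w hw ?_
      rw [← hk, h]
      exact hlpw w hw hc
  have hth2 : t h2 = b h2 := helse h2 hl2 h12.symm
  have hth3 : t g0 = b g0 := helse g0 hl3 h13.symm
  have harr2 : S.vx (F.arr v2) = v2 := F.arr_vx v2 hv2X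
  have htarr : t (F.arr v2) = b (F.arr v2) := by
    refine land_else hh1 (fun h => ?_) (fun w hw h => ?_) (fun w hw hc h => ?_)
    · apply hv
      have h5 : v2 = v1 := by rw [← harr2, h, hh1.vx]
      rw [h5]
      exact F.self_mem hv1X
    · apply hv
      have h5 : v2 = w := by rw [← harr2, h, F.arr_vx w (F.anc_sub v1 hv1X hw)]
      rw [h5]
      exact hw
    · apply hv
      have h5 : v2 = S.vx (F.hp w) := by rw [← harr2, h]
      rw [h5]
      exact (F.par_mem hv1X hw hc).1
  -- the move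
  have hne2 : t h2 ≠ t (F.arr v2) := by
    rw [hth2, htarr]
    exact hh2.ne
  have hclh2 : dev S t (S.lp h2) = 0 := by rw [hl2]; exact hlt
  obtain ⟨hlg, hgt, hstep, hSt2, hMt2, hgc, hlo, hoth2⟩ :=
    move hS hMt (h := h2) (k := F.arr v2) (by rw [hh2.vx, harr2]) hclh2 hne2
  set t2 := t ∘ Equiv.swap h2 (F.arr v2) with ht2
  have hSbt2 : Same S b t2 := same_trans hSt hSt2
  have hlg' : S.lp (F.arr v2) ≠ S.lp h1 := by
    rw [← hl2]
    exact hlg.symm
  have hlo' : dev S t2 (S.lp h1) ≠ 0 := by rw [← hl2]; exact hlo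
  -- labels of l in t2
  have ht2e : ∀ k, k ≠ h2 → k ≠ F.arr v2 → t2 k = t k := by
    intro k hk1 hk2
    rw [ht2, Function.comp_apply, Equiv.swap_apply_of_ne_of_ne hk1 hk2]
  have hnearr : ∀ k, S.lp k = S.lp h1 → k ≠ F.arr v2 := by
    intro k hk h
    apply hlg'
    rw [← h, hk]
  have e1 : t2 h1 = b (F.arr v1) := by rw [ht2e h1 h12 (hnearr h1 rfl), hth1]
  have e2 : t2 h2 = b (F.arr v2) := by
    rw [ht2, Function.comp_apply, Equiv.swap_apply_left, htarr]
  have e3 : t2 g0 = b g0 := by rw [ht2e g0 h23.symm (hnearr g0 hl3), hth3]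
  have hr1 : dev S b (S.lp h1) = S.sg h1 • (b h1 - b (F.arr v1)) := resonance hS hbm hh1
  have hr2 : dev S b (S.lp h1) = S.sg h1 • (b h2 - b (F.arr v2)) := by
    have h := resonance hS hbm hh2
    rw [hl2, ← hsg12] at h
    exact h
  have hd1 := dev_triple S b h12 h13 h23 hall
  have hd2 := dev_triple S t2 h12 h13 h23 hall
  have hneg : dev S t2 (S.lp h1) = - dev S b (S.lp h1) := by
    have h5 : dev S t2 (S.lp h1) = dev S b (S.lp h1) - S.sg h1 • (b h1 - b (F.arr v1))
        - S.sg h1 • (b h2 - b (F.arr v2)) := by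
      rw [hd1, hd2, e1, e2, e3, ← hsg12, smul_sub, smul_sub]
      abel
    rw [h5, ← hr1, ← hr2]
    abel
  have hnFR : ¬ FR S t2 (S.lp h1) := by
    intro hF
    have hT := (hF.2.2 g0 hl3).1
    rw [e3, hl3, hneg, hsg01] at hT
    have hT' : ∀ k, S.vx k = S.vx g0 → b k = b g0 ∨ b k = b g0 - S.sg h1 • -dev S b (S.lp h1) :=
      same_forall (P := fun x => x = b g0 ∨ x = b g0 - S.sg h1 • -dev S b (S.lp h1))
        (same_symm hSbt2) hT
    obtain ⟨k, hk, hbk⟩ := hT3.2
    rw [hl3, hsg01] at hbk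
    rcases hT' k hk with h | h
    · rw [hbk] at h
      have h5 : S.sg h1 • dev S b (S.lp h1) = 0 := by
        have h6 := sub_eq_self.mp h
        exact h6
      exact hop (sg_smul_eq_zero hS h1 h5)
    · rw [hbk, smul_neg, sub_neg_eq_add] at h
      have h5 : S.sg h1 • dev S b (S.lp h1) + S.sg h1 • dev S b (S.lp h1) = 0 := by
        have h6 : b g0 - S.sg h1 • dev S b (S.lp h1) - b g0 =
            b g0 + S.sg h1 • dev S b (S.lp h1) - b g0 := by rw [h]
        have h7 : - (S.sg h1 • dev S b (S.lp h1)) = S.sg h1 • dev S b (S.lp h1) := by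
          have h8 : b g0 - S.sg h1 • dev S b (S.lp h1) - b g0 = - (S.sg h1 • dev S b (S.lp h1)) := by
            abel
          have h9 : b g0 + S.sg h1 • dev S b (S.lp h1) - b g0 = S.sg h1 • dev S b (S.lp h1) := by
            abel
          rw [← h8, h6, h9]
        nth_rewrite 1 [← h7]
        exact neg_add_cancel _
      exact hop (sg_smul_eq_zero hS h1 (hS.two _ h5))
  -- the other loops
  have hFRo : ∀ l', l' ≠ S.lp (F.rt v1) → FR S t2 l' → FR S b l' := by
    intro l' hl' hF
    have hn1 : l' ≠ S.lp h1 := by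
      rintro rfl
      exact hnFR hF
    have hn2 : l' ≠ S.lp (F.arr v2) := by
      rintro rfl
      exact hF.2.1 hgc
    have hFt : FR S t l' := by
      refine (FR_congr hSt2 (l := l') fun k hk => ?_).mp hF
      refine ht2e k ?_ ?_
      · rintro rfl
        exact hn1 (by rw [← hk, hl2])
      · rintro rfl
        exact hn2 hk.symm
    exact (land_FR hS hbm hh1 hFt hl').1
  have hclo : ∀ l', l' ≠ S.lp (F.rt v1) → l' ≠ S.lp (F.arr v2) →
      (dev S t2 l' = 0 ↔ dev S b l' = 0) := by
    intro l' hl' hg'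
    by_cases hl1 : l' = S.lp h1
    · rw [hl1]
      exact ⟨fun h => absurd h hlo', fun h => absurd h hop⟩
    · rw [hoth2 l' (by rw [hl2]; exact hl1) hg']
      exact hoth l' hl' hl1
  have hrc : dev S b (S.lp (F.rt v1)) = 0 := F.rt_closed hv1X
  have hopt := hb.2 t2 hSbt2 hMt2
  by_cases hc : dev S b (S.lp (F.arr v2)) = 0
  · -- root
    have hrt2 : F.rt v2 = F.arr v2 := (F.root v2 hv2X hc).2.1
    have hroots := twoRoots hS hbm hh1 hh2 hl2.symm
    have hgr : S.lp (F.arr v2) = S.lp (F.rt v1) := by rw [hroots, hrt2]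
    have hlt' : Psi S t2 < Psi S b := by
      refine psi_lt' (fun l' => ?_) (fun l' hF => ?_) hFRl hnFR
      · by_cases h : l' = S.lp (F.rt v1)
        · rw [h, ← hgr]
          exact ⟨fun _ => hc, fun _ => hgc⟩
        · exact hclo l' h (by rw [hgr]; exact h)
      · by_cases h : l' = S.lp (F.rt v1)
        · rw [h, ← hgr] at hF
          exact absurd hgc hF.2.1
        · exact hFRo l' h hF
    omega
  · -- child
    have hrl : S.lp (F.rt v1) ≠ S.lp h1 := by
      intro h
      rw [h] at hrc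
      exact hop hrc
    have hrg : S.lp (F.rt v1) ≠ S.lp (F.arr v2) := by
      intro h
      rw [h] at hrc
      exact hc hrc
    have hro : dev S t2 (S.lp (F.rt v1)) ≠ 0 := by
      rw [hoth2 _ (by rw [hl2]; exact hrl) hrg]
      exact hrt
    by_cases hT : IsTriple S (S.lp (F.arr v2))
    · have hag : ∀ k, S.lp k = S.lp (F.arr v2) → t k = b k := by
        intro k hk
        refine land_off hh1 (by rw [hk]; exact hlg') (fun w hw h => ?_)
        rw [hk] at h
        have h5 := F.inj v2 hv2X w (F.anc_sub v1 hv1X hw) hc h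
        rw [h5] at hv
        exact hv hw
      have hFRg : FR S b (S.lp (F.arr v2)) :=
        dLemma hS hbm F hv2X hc hT hRt hh2.vx hclh2 (by rw [hth2]; exact hh2.ne) hag
      have hlt' : Psi S t2 < Psi S b := by
        refine psi_lt (r := S.lp (F.rt v1)) (g := S.lp (F.arr v2)) hclo hrc hro hc hgc hFRo
          {S.lp h1, S.lp (F.arr v2)} ?_ ?_
        · intro l' hl'
          rw [Finset.mem_insert, Finset.mem_singleton] at hl'
          rcases hl' with h | h
          · rw [h]; exact ⟨hFRl, hnFR⟩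
          · rw [h]; exact ⟨hFRg, fun hF => hF.2.1 hgc⟩
        · rw [Finset.card_pair hlg'.symm, if_pos hT]
          split_ifs <;> omega
      omega
    · have hlt' : Psi S t2 < Psi S b := by
        refine psi_lt (r := S.lp (F.rt v1)) (g := S.lp (F.arr v2)) hclo hrc hro hc hgc hFRo
          {S.lp h1} ?_ ?_
        · intro l' hl'
          rw [Finset.mem_singleton] at hl'
          rw [hl']
          exact ⟨hFRl, hnFR⟩
        · rw [Finset.card_singleton, if_neg hT]
          split_ifs <;> omega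
      omega

theorem seven {S : Sys A V H L} (hS : Good S) {b : H → A} (hb : Opt S b) {F : Forest S b}
    {v1 v2 v3 : V} {h1 h2 h3 : H} (hh1 : F.Bad v1 h1) (hh2 : F.Bad v2 h2) (hh3 : F.Bad v3 h3)
    (hl2 : S.lp h2 = S.lp h1) (hl3 : S.lp h3 = S.lp h1) (h12 : h1 ≠ h2) (h13 : h1 ≠ h3)
    (h23 : h2 ≠ h3) (he : IsTriple S (S.lp h1)) : False := by
  by_cases hv : v2 ∈ F.anc v1
  · have hvx := (triple_pair he hl2 h12).1
    rw [hh1.vx, hh2.vx] at hvx
    have hv' : v1 ∉ F.anc v2 := by
      intro h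
      exact hvx (F.anc_antisymm hh2.mem h hv).symm
    exact seven_aux hS hb hh2 hh1 hh3 hl2.symm (hl3.trans hl2.symm) h12.symm h23 h13
      (by rw [hl2]; exact he) hv'
  · exact seven_aux hS hb hh1 hh2 hh3 hl2 hl3 h12 h13 h23 he hv

end Pool.Agent.Helper15.OS
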