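import Pool.Agent.Helper15.OS.Six
import Pool.Agent.Helper15.OS.Seven
import Pool.Agent.Helper15.OS.Ext

/-!
OS-MAIN.  Assembly.  H empty: L is empty (`exists_half`), trivial.  Otherwise take an optimal b
(`exists_opt`), a maximal forest (`forest_max`), κ v = some (b (arr v)) on X.
Closed loops: `closed_mem` and P1.  A loop l which is not closed, without selected half-edge, with a
half-edge h at a vertex of X: all half-edges of l in X are bad (`bad_of_all`).  Edge: the other
half-edge is outside X: `forest_ext` contradicts maximality; in X: `six`.  Triple: all in X: `seven`;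
exactly one outside: `forest_ext` with the outside one as child (third one bad in X); two outside,
a1 and a2: if T1 b a1 is false, child a1, otherwise child a2 (typ: T1 b a1 holds).
-/

namespace Pool.Agent.Helper15.OS

open Finset
open scoped Classical

variable {A V H L : Type*} [AddCommGroup A] [Fintype H] [Fintype L]

/-- a maximal forest has no conflict -/
theorem no_conflict {S : Sys A V H L} (hS : Good S) {b : H → A} (hb : Opt S b)
    (F : Forest S b) (hmax : ∀ F' : Forest S b, F'.X.card ≤ F.X.card) {h : H}
    (hX : S.vx h ∈ F.X)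
    (hall : ∀ k, S.lp k = S.lp h → S.vx k ∈ F.X → b k ≠ b (F.arr (S.vx k))) : False := by
  have hbad : ∀ k, S.lp k = S.lp h → S.vx k ∈ F.X → F.Bad (S.vx k) k := by
    intro k hk hkX
    exact bad_of_all F hkX (fun k' hk' => hall k' (hk'.trans hk))
  have hop : dev S b (S.lp h) ≠ 0 := (hbad h rfl hX).open' hS hb.1
  have hnew : ∀ w ∈ F.X, S.lp (F.arr w) ≠ S.lp h := by
    intro w hw e
    have h1 : S.vx (F.arr w) ∈ F.X := by rw [F.arr_vx w hw]; exact hw
    have h2 := hall (F.arr w) e h1
    rw [F.arr_vx w hw] at h2
    exact h2 rfl
  -- no extension is possible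
  have hext : ∀ a k, S.lp a = S.lp h → S.lp k = S.lp h → S.vx a ∉ F.X → S.vx k ∈ F.X →
      (∀ g, S.lp g = S.lp h → g ≠ a → g ≠ k → T1 S b a → T1 S b g ∨ S.vx g ∈ F.X) → False := by
    intro a k ha hk haX hkX ht
    obtain ⟨F', hF'⟩ := forest_ext F (a := a) (k := k) haX hkX (hk.trans ha.symm)
      (hall k hk hkX) (by rw [ha]; exact hop) (by rw [ha]; exact hnew) (by
        intro g hg hga hgk hT
        rcases ht g (hg.trans ha) hga hgk hT with h1 | h1
        · exact Or.inl h1
        · exact Or.inr ⟨h1, hall g (hg.trans ha) h1⟩)
    have := hmax F'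
    rw [hF', Finset.card_insert_of_notMem haX] at this
    omega
  rcases hS.typ (S.lp h) with he | ht
  · obtain ⟨k, hk, hne⟩ := edge_other he
    by_cases hkX : S.vx k ∈ F.X
    · exact six hS hb (hbad h rfl hX) (hbad k hk hkX) hk.symm hne he
    · refine hext k h hk rfl hkX hX ?_
      intro g hg hgk hgh
      rcases (edge_pair he hk hne).2 g hg with e | e
      · exact absurd e hgh
      · exact absurd e hgk
  · obtain ⟨k, hk, hne⟩ := triple_other ht
    obtain ⟨hvv, hs, g, hg, hgh, hgk, hvg1, hvg2, hsg, hgall⟩ := triple_pair ht hk hne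
    by_cases hkX : S.vx k ∈ F.X
    · by_cases hgX : S.vx g ∈ F.X
      · exact seven hS hb (hbad h rfl hX) (hbad k hk hkX) (hbad g hg hgX) hk hg hne hgh.symm
          hgk.symm ht
      · refine hext g h hg rfl hgX hX ?_
        intro g' hg' hg'g hg'h _
        rcases hgall g' hg' with e | e | e
        · exact absurd e hg'h
        · exact Or.inr (by rw [e]; exact hkX)
        · exact absurd e hg'g
    · by_cases hgX : S.vx g ∈ F.X
      · refine hext k h hk rfl hkX hX ?_
        intro g' hg' hg'k hg'h _
        rcases hgall g' hg' with e | e | e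
        · exact absurd e hg'h
        · exact absurd e hg'k
        · exact Or.inr (by rw [e]; exact hgX)
      · by_cases hT : T1 S b k
        · refine hext g h hg rfl hgX hX ?_
          intro g' hg' hg'g hg'h _
          rcases hgall g' hg' with e | e | e
          · exact absurd e hg'h
          · exact Or.inl (by rw [e]; exact hT)
          · exact absurd e hg'g
        · refine hext k h hk rfl hkX hX ?_
          intro g' hg' hg'k hg'h h1
          exact absurd h1 hT

/-- ODD STEP LEMMA.  The labels `b0` can be permuted at the vertices (`w`) and classes `κ` can be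
given to some vertices (`κ v = some a`: type C with class `a`; `κ v = none`: type I) such that every
half-edge of a closed loop is selected, and every loop which is not closed has a selected half-edge
or has all its half-edges at vertices of type I. -/
theorem oddStep (S : Sys A V H L) (hS : Good S) (b0 : H → A) :
    ∃ (w : Equiv.Perm H) (κ : V → Option A), (∀ h, S.vx (w h) = S.vx h) ∧
      (∀ l, dev S (b0 ∘ w) l = 0 → ∀ h, S.lp h = l → κ (S.vx h) = some (b0 (w h))) ∧
      (∀ l, dev S (b0 ∘ w) l ≠ 0 →
        (∃ h, S.lp h = l ∧ κ (S.vx h) = some (b0 (w h))) ∨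
        (∀ h, S.lp h = l → κ (S.vx h) = none)) := by
  rcases isEmpty_or_nonempty H with hH | hH
  · refine ⟨1, fun _ => none, fun h => rfl, ?_, ?_⟩
    · intro l _ h
      exact (hH.false h).elim
    · intro l _
      right
      intro h
      exact (hH.false h).elim
  obtain ⟨b, hsame, hb⟩ := exists_opt S b0
  obtain ⟨w, hw, rfl⟩ := hsame
  obtain ⟨F, hmax⟩ := forest_max (S := S) (b0 ∘ w)
  refine ⟨w, fun v => if v ∈ F.X then some ((b0 ∘ w) (F.arr v)) else none, hw, ?_, ?_⟩
  · intro l hl h hh
    subst hh
    obtain ⟨hX, hc⟩ := F.closed_mem h hl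
    have := P1 hS hb.1 (F.arr_vx _ hX).symm hl hc
    simp only [hX, if_true]
    exact congrArg some this.symm
  · intro l hl
    by_contra hcon
    push Not at hcon
    obtain ⟨hsel, h, hh, hne⟩ := hcon
    subst hh
    have hX : S.vx h ∈ F.X := by
      by_contra hX
      simp [hX] at hne
    refine no_conflict hS hb F hmax hX ?_
    intro k hk hkX e
    apply hsel k hk
    simp only [hkX, if_true]
    exact congrArg some e.symm

end Pool.Agent.Helper15.OS
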