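import Pool.Agent.Helper15.OS.MinL

/-!
OS-BIN.  Reachability by token moves and the binary lemma.
* `reach_min`, `reach_same`: by induction, with `move`.
* `reach_symm`: a token move is reversed by the token move exchanging k and h back.
* `binary_seq`: f 0, ..., f n a sequence of token moves starting from a minimal labelling, z a vertex,
  h, k half-edges at z with lp h closed in f 0, lp k closed in f n, f 0 h ≠ f n k.  Then every label
  at z is f 0 h or f n k.  STRONG INDUCTION ON n.  n = 0: P1 contradiction.
  (i) Suppose for some 0 < i < n there is g at z with lp g closed in f i.  If f i g ≠ f 0 h apply the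
  induction hypothesis to f 0..f i: labels at z are f 0 h or f i g; the value f n k is a label at z
  (Same) and ≠ f 0 h, so f n k = f i g, done.  If f i g = f 0 h then f i g ≠ f n k: apply it to
  f i .. f n.
  (ii) Otherwise no loop with a half-edge at z is closed in f i for 0 < i < n.  Then no move i → i+1
  exchanges at z: the move takes h_i (closed loop in f i) and k_i (closed loop in f (i+1)); if they
  are at z then i = 0 and i + 1 = n, so n = 1, and f 1 k_0 = f 0 h_0 = f 0 h (P1 in f 0), while
  f 1 k = f 1 k_0 (P1 in f 1): contradiction.  So the labels at z are constant along the sequence.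
  Let g be at z with label β different from a = f 0 h and a' = f n k.  lp g is not closed in any f i:
  for i = 0 or n by P1, for 0 < i < n by (ii).  So the moves never touch lp g (a move i → i+1 changes
  labels only on a loop closed in f i and on a loop closed in f (i+1)), its labels are constant.
  `move` in f 0 (h, g) closes lp g: dev (f 0) (lp g) = sg g • (β - a); `move` in f n (k, g):
  dev (f n) (lp g) = sg g • (β - a').  So a = a', contradiction.
* `binary`: concatenate.
-/

namespace Pool.Agent.Helper15.OS

open Finset
open scoped Classical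

variable {A V H L : Type*} [AddCommGroup A] [Fintype H] [Fintype L]

theorem reach_min {S : Sys A V H L} (hS : Good S) {b b' : H → A} (hb : Min S b)
    (h : Reach S b b') : Min S b' := by
  induction h with
  | refl => exact hb
  | tail _ hstep ih =>
    obtain ⟨h, k, hv, -, hne, hh, rfl⟩ := hstep
    exact (move hS ih hv hh hne).2.2.2.2.1

theorem reach_same {S : Sys A V H L} {b b' : H → A} (h : Reach S b b') : Same S b b' := by
  induction h with
  | refl => exact same_refl S b
  | tail _ hstep ih =>
    obtain ⟨h, k, hv, -, hne, hh, rfl⟩ := hstep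
    exact same_trans ih (same_swap _ hv)

private theorem Bin_swap (b : H → A) (h k : H) :
    (b ∘ Equiv.swap h k) ∘ Equiv.swap k h = b := by
  funext x
  simp [Function.comp, Equiv.swap_comm k h]

theorem reach_symm {S : Sys A V H L} (hS : Good S) {b b' : H → A} (hb : Min S b)
    (h : Reach S b b') : Reach S b' b := by
  induction h with
  | refl => exact Relation.ReflTransGen.refl
  | @tail c d hbc hstep ih =>
    have hc : Min S c := reach_min hS hb hbc
    obtain ⟨h, k, hv, hl, hne, hh, rfl⟩ := hstep
    have hm := move hS hc hv hh hne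
    have hs : Step S (c ∘ Equiv.swap h k) c := by
      refine ⟨k, h, hv.symm, hl.symm, ?_, hm.2.2.2.2.2.1, (Bin_swap c h k).symm⟩
      simpa using hne
    exact Relation.ReflTransGen.head hs ih

private theorem Bin_reach {S : Sys A V H L} (n : ℕ) (f : ℕ → H → A)
    (hf : ∀ i < n, Step S (f i) (f (i + 1))) (i j : ℕ) (hij : i ≤ j) (hj : j ≤ n) :
    Reach S (f i) (f j) := by
  induction j, hij using Nat.le_induction with
  | base => exact Relation.ReflTransGen.refl
  | succ j hij ih => exact Relation.ReflTransGen.tail (ih (by omega)) (hf j (by omega))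

theorem binary_seq {S : Sys A V H L} (hS : Good S) (n : ℕ) (f : ℕ → H → A) (h0 : Min S (f 0))
    (hf : ∀ i < n, Step S (f i) (f (i + 1))) {h k : H} (hv : S.vx h = S.vx k)
    (hh : dev S (f 0) (S.lp h) = 0) (hk : dev S (f n) (S.lp k) = 0) (hn : f 0 h ≠ f n k) :
    ∀ g, S.vx g = S.vx h → f 0 g = f 0 h ∨ f 0 g = f n k := by
  induction n using Nat.strong_induction_on generalizing f h k with
  | _ n ih =>
  have hmin : ∀ i ≤ n, Min S (f i) := fun i hi =>
    reach_min hS h0 (Bin_reach n f hf 0 i (Nat.zero_le _) hi)
  have hsame : ∀ i ≤ n, Same S (f 0) (f i) := fun i hi =>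
    reach_same (Bin_reach n f hf 0 i (Nat.zero_le _) hi)
  rcases Nat.eq_zero_or_pos n with rfl | hn0
  · exact absurd (P1 hS h0 hv hh hk) hn
  by_cases hi : ∃ i, 0 < i ∧ i < n ∧ ∃ g, S.vx g = S.vx h ∧ dev S (f i) (S.lp g) = 0
  · -- case (i)
    obtain ⟨i, hi0, hin, g0, hg0, hd⟩ := hi
    by_cases hne : f i g0 = f 0 h
    · have hne' : f (i + 0) g0 ≠ f (i + (n - i)) k := by
        rw [Nat.add_zero, Nat.add_sub_cancel' hin.le, hne]
        exact hn
      have h1 := ih (n - i) (by omega) (fun j => f (i + j)) (hmin i hin.le)
        (fun j hj => hf (i + j) (by omega)) (h := g0) (k := k) (by rw [hg0, hv]) hd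
        (by
          show dev S (f (i + (n - i))) (S.lp k) = 0
          rw [Nat.add_sub_cancel' hin.le]
          exact hk) hne'
      have h2 : ∀ g, S.vx g = S.vx h → f i g = f 0 h ∨ f i g = f n k := by
        intro g hg
        have h3 := h1 g (by rw [hg, hg0])
        simp only [Nat.add_zero, Nat.add_sub_cancel' hin.le] at h3
        rwa [hne] at h3
      exact same_forall (same_symm (hsame i hin.le))
        (P := fun a => a = f 0 h ∨ a = f n k) h2
    · have h1 := ih i hin f h0 (fun j hj => hf j (by omega)) (h := h) (k := g0) hg0.symm hh hd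
        (fun e => hne e.symm)
      obtain ⟨k', hk', hk''⟩ := same_exists (same_symm (hsame n le_rfl)) (z := S.vx h)
        (P := fun a => a = f n k) ⟨k, hv.symm, rfl⟩
      have h2 : f n k = f i g0 := by
        rcases h1 k' hk' with h3 | h3
        · exact absurd (h3.symm.trans hk'') hn
        · exact hk''.symm.trans h3
      rw [h2]
      exact h1
  · -- case (ii)
    push Not at hi
    have hstep : ∀ i < n, ∃ h' k' : H, S.vx h' = S.vx k' ∧ S.vx h' ≠ S.vx h ∧
        dev S (f i) (S.lp h') = 0 ∧ dev S (f (i + 1)) (S.lp k') = 0 ∧
        f (i + 1) = f i ∘ Equiv.swap h' k' := by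
      intro i hin
      obtain ⟨h', k', hv', hl', hne', hd', hf'⟩ := hf i hin
      have hm := move hS (hmin i hin.le) hv' hd' hne'
      have hk' : dev S (f (i + 1)) (S.lp k') = 0 := by
        rw [hf']
        exact hm.2.2.2.2.2.1
      refine ⟨h', k', hv', ?_, hd', hk', hf'⟩
      intro hz
      have hi0 : i = 0 := by
        by_contra hi0
        exact hi i (by omega) hin h' hz hd'
      have hin' : i + 1 = n := by
        by_contra hin'
        exact hi (i + 1) (by omega) (by omega) k' (by rw [← hv', hz]) hk'
      subst hi0
      apply hn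
      have e1 : f 0 h' = f 0 h := P1 hS h0 hz hd' hh
      have e2 : f (0 + 1) k' = f 0 h' := by
        rw [hf']
        simp
      have e3 : f n k = f n k' := by
        rw [hin'] at hk'
        exact P1 hS (hmin n le_rfl) (by rw [← hv, ← hv', hz]) hk hk'
      rw [e3, ← hin', e2, e1]
    have hconst : ∀ i ≤ n, ∀ g, S.vx g = S.vx h → f i g = f 0 g := by
      intro i
      induction i with
      | zero => intro _ g _; rfl
      | succ i ihi =>
        intro hin g hg
        obtain ⟨h', k', hv', hz, -, -, hf'⟩ := hstep i (by omega)
        have e1 : g ≠ h' := by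
          rintro rfl
          exact hz hg
        have e2 : g ≠ k' := by
          rintro rfl
          exact hz (hv'.trans hg)
        rw [hf', Function.comp_apply, Equiv.swap_apply_of_ne_of_ne e1 e2]
        exact ihi (by omega) g hg
    intro g hg
    by_contra hcon
    push Not at hcon
    obtain ⟨hc1, hc2⟩ := hcon
    have hopen : ∀ i ≤ n, dev S (f i) (S.lp g) ≠ 0 := by
      intro i hin hd
      rcases Nat.eq_zero_or_pos i with rfl | hi0
      · exact hc1 (P1 hS h0 hg hd hh)
      · rcases Nat.lt_or_ge i n with hlt | hge
        · exact hi i hi0 hlt g hg hd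
        · have hin' : i = n := by omega
          subst hin'
          have e1 := P1 hS (hmin i le_rfl) (hg.trans hv) hd hk
          rw [hconst i le_rfl g hg] at e1
          exact hc2 e1
    have hloop : ∀ i ≤ n, ∀ g', S.lp g' = S.lp g → f i g' = f 0 g' := by
      intro i
      induction i with
      | zero => intro _ g _; rfl
      | succ i ihi =>
        intro hin g' hg'
        obtain ⟨h', k', hv', hz, hd1, hd2, hf'⟩ := hstep i (by omega)
        have e1 : g' ≠ h' := by
          rintro rfl
          rw [hg'] at hd1
          exact hopen i (by omega) hd1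
        have e2 : g' ≠ k' := by
          rintro rfl
          rw [hg'] at hd2
          exact hopen (i + 1) hin hd2
        rw [hf', Function.comp_apply, Equiv.swap_apply_of_ne_of_ne e1 e2]
        exact ihi (by omega) g' hg'
    have hdev : dev S (f n) (S.lp g) = dev S (f 0) (S.lp g) := dev_congr S (hloop n le_rfl)
    have hgn : f n g = f 0 g := hconst n le_rfl g hg
    have hm1 := move hS h0 hg.symm hh (fun e => hc1 e.symm)
    have hm2 := move hS (hmin n le_rfl) (h := k) (k := g) (hv.symm.trans hg.symm) hk
      (fun e => hc2 (by rw [← hgn, ← e]))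
    have e1 := hm1.2.2.2.2.2.1
    have e2 := hm2.2.2.2.2.2.1
    rw [dev_swap, if_neg hm1.1, if_pos rfl, add_zero] at e1
    rw [dev_swap, if_neg hm2.1, if_pos rfl, add_zero, hdev, hgn] at e2
    have e3 : S.sg g • (f 0 h - f n k) = 0 := by
      have e4 : S.sg g • (f 0 h - f 0 g) = S.sg g • (f n k - f 0 g) := by
        have := e1.trans e2.symm
        exact add_left_cancel this
      rw [smul_sub, smul_sub] at e4
      rw [smul_sub]
      exact sub_eq_zero.2 (sub_left_injective e4)
    exact hn (sub_eq_zero.1 (sg_smul_eq_zero hS g e3))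

private theorem Bin_seq {S : Sys A V H L} {b b' : H → A} (h : Reach S b b') :
    ∃ (n : ℕ) (f : ℕ → H → A), f 0 = b ∧ f n = b' ∧ ∀ i < n, Step S (f i) (f (i + 1)) := by
  induction h using Relation.ReflTransGen.head_induction_on with
  | refl => exact ⟨0, fun _ => b', rfl, rfl, fun i hi => absurd hi (Nat.not_lt_zero _)⟩
  | @head a c hac _ ih =>
    obtain ⟨n, f, hf0, hfn, hf⟩ := ih
    refine ⟨n + 1, fun i => Nat.casesOn i a (fun j => f j), rfl, hfn, ?_⟩
    intro i hi
    rcases i with _ | i
    · show Step S a (f 0)
      rw [hf0]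
      exact hac
    · exact hf i (by omega)

theorem binary {S : Sys A V H L} (hS : Good S) {b t t' : H → A} (hb : Min S b)
    (h1 : Reach S b t) (h2 : Reach S b t') {h k : H} (hv : S.vx h = S.vx k)
    (hh : dev S t (S.lp h) = 0) (hk : dev S t' (S.lp k) = 0) (hn : t h ≠ t' k) :
    ∀ g, S.vx g = S.vx h → b g = t h ∨ b g = t' k := by
  have ht : Min S t := reach_min hS hb h1
  have h3 : Reach S t t' := (reach_symm hS hb h1).trans h2
  obtain ⟨n, f, hf0, hfn, hf⟩ := Bin_seq h3
  have h4 := binary_seq hS n f (by rw [hf0]; exact ht) hf hv (by rw [hf0]; exact hh)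
    (by rw [hfn]; exact hk) (by rw [hf0, hfn]; exact hn)
  rw [hf0, hfn] at h4
  exact same_forall (same_symm (reach_same h1)) (P := fun a => a = t h ∨ a = t' k) h4

end Pool.Agent.Helper15.OS
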