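import Pool.Agent.Helper15.OS.Main
import Pool.Agent.CA.Defs

/-!
`Pool.Agent.CA.OddComb` (the combinatorial odd step) from `oddStep`.
-/

namespace Pool.Agent.Helper15.OS

open Finset

theorem oddComb : Pool.Agent.CA.OddComb := by
  intro p hp hp2 V Lp H _ _ _ _ v l s b₀ c hyp
  classical
  have : Fintype Lp := Fintype.ofFinite Lp
  let S : Sys (ZMod p) V H Lp := ⟨v, l, fun h => if s h then 1 else -1, c⟩
  have hS : Good S := by
    refine ⟨?_, ?_, ?_⟩
    · intro h
      by_cases hs : s h <;> simp [S, hs]
    · intro i
      rcases hyp i with ⟨h, h', hne, hset, hs⟩ | ⟨hcard, hinj, hs⟩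
      · left
        refine ⟨h, h', hne, ?_, ?_⟩
        · simp only [S]
          cases e : s h <;> cases e' : s h' <;> simp_all
        · intro k
          have : k ∈ {x | l x = i} ↔ k ∈ ({h, h'} : Set H) := by rw [hset]
          simpa using this
      · right
        obtain ⟨x, y, z, hxy, hxz, hyz, hset⟩ := Set.ncard_eq_three.1 hcard
        have hx : l x = i := by
          have : x ∈ {x | l x = i} := by rw [hset]; simp
          exact this
        have hy : l y = i := by
          have : y ∈ {x | l x = i} := by rw [hset]; simp
          exact this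
        have hz : l z = i := by
          have : z ∈ {x | l x = i} := by rw [hset]; simp
          exact this
        refine ⟨x, y, z, ?_, ?_, ?_, ?_, ?_, ?_⟩
        · intro e; exact hxy (hinj hx hy e)
        · intro e; exact hxz (hinj hx hz e)
        · intro e; exact hyz (hinj hy hz e)
        · simp only [S]; rw [hs x y hx hy]
        · simp only [S]; rw [hs y z hy hz]
        · intro k
          have : k ∈ {x | l x = i} ↔ k ∈ ({x, y, z} : Set H) := by rw [hset]
          simpa using this
    · intro a ha
      have h2 : (2 : ZMod p) * a = 0 := by rw [two_mul]; exact ha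
      rcases mul_eq_zero.1 h2 with h3 | h3
      · exfalso
        have h4 : ((2 : ℕ) : ZMod p) = 0 := by exact_mod_cast h3
        rw [ZMod.natCast_eq_zero_iff] at h4
        have := (Nat.prime_dvd_prime_iff_eq hp.out Nat.prime_two).1 h4
        exact hp2 this
      · exact h3
  have hdev : ∀ (b : H → ZMod p) (i : Lp), dev S b i = 0 ↔
      ∑ h with l h = i, (if s h then b h else -b h) = c i := by
    intro b i
    have h0 : dev S b i = (∑ h : H, if l h = i then (if s h then b h else -b h) else 0) - c i := by
      unfold dev
      congr 1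
      refine Finset.sum_congr rfl fun h _ => ?_
      by_cases h1 : l h = i <;> by_cases h2 : s h <;> simp [S, h1, h2]
    rw [h0, sub_eq_zero, Finset.sum_filter]
  obtain ⟨w, κ, hw, h1, h2⟩ := oddStep S hS b₀
  refine ⟨w, κ, hw, fun i => ⟨?_, ?_⟩⟩
  · intro hc h hh
    exact h1 i ((hdev (b₀ ∘ w) i).2 hc) h hh
  · intro hc
    exact h2 i (fun e => hc ((hdev (b₀ ∘ w) i).1 e))

end Pool.Agent.Helper15.OS
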