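import Mathlib

/-!
# The odd step lemma with triples: definitions

A system consists of half-edges `H`, each at a vertex `vx h`, on a loop `lp h`, with a sign `sg h`,
and of constants `c l` of the loops.  A labelling is a map `b : H → A`; `dev b l` is the signed sum
of the labels on the loop `l` minus `c l`; the loop `l` is closed for `b` iff `dev b l = 0`.
-/

namespace Pool.Agent.Helper15.OS

open Finset
open scoped Classical

variable {A V H L : Type*} [AddCommGroup A] [Fintype H] [Fintype L]

/-- half-edges at vertices, on loops, with signs; constants of the loops -/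
structure Sys (A V H L : Type*) where
  vx : H → V
  lp : H → L
  sg : H → ℤ
  c : L → A

/-- signed label sum of the loop `l` minus its constant; `l` is closed iff it vanishes -/
noncomputable def dev (S : Sys A V H L) (b : H → A) (l : L) : A :=
  (∑ h : H, if S.lp h = l then S.sg h • b h else 0) - S.c l

/-- an edge: exactly two half-edges (perhaps at the same vertex) with opposite signs -/
def IsEdge (S : Sys A V H L) (l : L) : Prop :=
  ∃ h1 h2 : H, h1 ≠ h2 ∧ S.sg h1 + S.sg h2 = 0 ∧ ∀ h, S.lp h = l ↔ h = h1 ∨ h = h2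

/-- a triple: exactly three half-edges at three different vertices, with equal signs -/
def IsTriple (S : Sys A V H L) (l : L) : Prop :=
  ∃ h1 h2 h3 : H, S.vx h1 ≠ S.vx h2 ∧ S.vx h1 ≠ S.vx h3 ∧ S.vx h2 ≠ S.vx h3 ∧
    S.sg h1 = S.sg h2 ∧ S.sg h2 = S.sg h3 ∧ ∀ h, S.lp h = l ↔ h = h1 ∨ h = h2 ∨ h = h3

/-- standing assumptions on the system -/
structure Good (S : Sys A V H L) : Prop where
  sgn : ∀ h, S.sg h = 1 ∨ S.sg h = -1
  typ : ∀ l, IsEdge S l ∨ IsTriple S l
  two : ∀ a : A, a + a = 0 → a = 0

/-- number of closed loops -/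
noncomputable def ncl (S : Sys A V H L) (b : H → A) : ℕ :=
  (univ.filter fun l => dev S b l = 0).card

/-- `b'` is obtained from `b` by permuting the labels at every vertex -/
def Same (S : Sys A V H L) (b b' : H → A) : Prop :=
  ∃ w : Equiv.Perm H, (∀ h, S.vx (w h) = S.vx h) ∧ b' = b ∘ w

/-- `b` has the minimal number of closed loops -/
def Min (S : Sys A V H L) (b : H → A) : Prop := ∀ b', Same S b b' → ncl S b ≤ ncl S b'

/-- token move: exchange the labels of `h` (on a closed loop) and `k` (on another loop) at one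
vertex, the two labels being different -/
def Step (S : Sys A V H L) (b b' : H → A) : Prop :=
  ∃ h k : H, S.vx h = S.vx k ∧ S.lp h ≠ S.lp k ∧ b h ≠ b k ∧ dev S b (S.lp h) = 0 ∧
    b' = b ∘ Equiv.swap h k

/-- reachable by token moves -/
def Reach (S : Sys A V H L) (b b' : H → A) : Prop := Relation.ReflTransGen (Step S) b b'

/-- the half-edge `h` has type 1: the labels at its vertex take exactly the two values `b h` and
`b h - sg h • dev b (lp h)` (the second one is the value which closes the loop of `h`) -/
def T1 (S : Sys A V H L) (b : H → A) (h : H) : Prop :=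
  (∀ k, S.vx k = S.vx h → b k = b h ∨ b k = b h - S.sg h • dev S b (S.lp h)) ∧
    ∃ k, S.vx k = S.vx h ∧ b k = b h - S.sg h • dev S b (S.lp h)

/-- a fully resonant triple -/
def FR (S : Sys A V H L) (b : H → A) (l : L) : Prop :=
  IsTriple S l ∧ dev S b l ≠ 0 ∧ ∀ h, S.lp h = l → T1 S b h

/-- the potential: `3 *` number of closed triples `+ 2 *` number of fully resonant triples -/
noncomputable def Psi (S : Sys A V H L) (b : H → A) : ℕ :=
  3 * (univ.filter fun l => IsTriple S l ∧ dev S b l = 0).card +
    2 * (univ.filter fun l => FR S b l).card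

/-- optimal labelling: minimal number of closed loops, then minimal potential -/
def Opt (S : Sys A V H L) (b : H → A) : Prop :=
  Min S b ∧ ∀ b', Same S b b' → Min S b' → Psi S b ≤ Psi S b'

/-- A forest of the closure.  `X`: vertices which got a class, the class of `v` is `b (arr v)`.
A vertex `v ∈ X` is a root if the loop of `arr v` is closed, otherwise a child: then `hp v` is the
half-edge of the same loop at the parent `vx (hp v)`, it is not selected there.  `anc v`: the
vertices on the path from the root to `v` (with `v`); `rt v`: `arr` of the root; `pi v`: product of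
the exchanges at the vertices of the path before `v`. -/
structure Forest (S : Sys A V H L) (b : H → A) where
  X : Finset V
  arr : V → H
  hp : V → H
  anc : V → Finset V
  rt : V → H
  pi : V → Equiv.Perm H
  arr_vx : ∀ v ∈ X, S.vx (arr v) = v
  closed_mem : ∀ h, dev S b (S.lp h) = 0 → S.vx h ∈ X ∧ dev S b (S.lp (arr (S.vx h))) = 0
  root : ∀ v ∈ X, dev S b (S.lp (arr v)) = 0 → anc v = {v} ∧ rt v = arr v ∧ pi v = 1
  child : ∀ v ∈ X, dev S b (S.lp (arr v)) ≠ 0 →
    S.lp (hp v) = S.lp (arr v) ∧ S.vx (hp v) ∈ X ∧ b (hp v) ≠ b (arr (S.vx (hp v))) ∧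
    anc v = insert v (anc (S.vx (hp v))) ∧ v ∉ anc (S.vx (hp v)) ∧ rt v = rt (S.vx (hp v)) ∧
    pi v = pi (S.vx (hp v)) * Equiv.swap (arr (S.vx (hp v))) (hp v)
  anc_sub : ∀ v ∈ X, anc v ⊆ X
  inj : ∀ v ∈ X, ∀ w ∈ X, dev S b (S.lp (arr v)) ≠ 0 → S.lp (arr v) = S.lp (arr w) → v = w
  typ : ∀ v ∈ X, dev S b (S.lp (arr v)) ≠ 0 → ∀ h, S.lp h = S.lp (arr v) → h ≠ arr v →
    h ≠ hp v → T1 S b (arr v) →
    T1 S b h ∨ (S.vx h ∈ X ∧ b h ≠ b (arr (S.vx h)) ∧ v ∉ anc (S.vx h))

/-- run the token to `v` and move it onto the loop of `h` (a half-edge at `v`) -/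
noncomputable def Forest.land {S : Sys A V H L} {b : H → A} (F : Forest S b) (v : V) (h : H) :
    H → A := b ∘ (F.pi v * Equiv.swap (F.arr v) h)

/-- `h` is a half-edge at the vertex `v ∈ X`, not selected, and its loop is not on the path to `v` -/
structure Forest.Bad {S : Sys A V H L} {b : H → A} (F : Forest S b) (v : V) (h : H) : Prop where
  mem : v ∈ F.X
  vx : S.vx h = v
  ne : b h ≠ b (F.arr v)
  off : ∀ w ∈ F.anc v, S.lp h ≠ S.lp (F.arr w)

end Pool.Agent.Helper15.OS
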