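import Pool.Agent.Helper15.OS.Defs

/-!
OS-DEV.  Elementary facts on `dev`.
* `dev_swap`: exchanging the labels of `h` and `k` changes the sum only in the terms h and k
  (also true for h = k, and for lp h = lp k).
* `dev_congr`: dev only depends on the labels of the half-edges of l.
* `dev_edge`, `dev_triple`: the sum written out (Finset.sum over two / three elements).
* `smul_sg`: s • (s • a) = a for s = 1, -1.
-/

namespace Pool.Agent.Helper15.OS

open Finset
open scoped Classical

variable {A V H L : Type*} [AddCommGroup A] [Fintype H] [Fintype L]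

omit [Fintype L] in
theorem dev_congr (S : Sys A V H L) {b b' : H → A} {l : L} (h : ∀ k, S.lp k = l → b' k = b k) :
    dev S b' l = dev S b l := by
  unfold dev
  congr 1
  refine Finset.sum_congr rfl fun k _ => ?_
  by_cases hk : S.lp k = l
  · simp [hk, h k hk]
  · simp [hk]

omit [Fintype L] in
theorem dev_swap (S : Sys A V H L) (b : H → A) (h k : H) (l : L) :
    dev S (b ∘ Equiv.swap h k) l = dev S b l
      + (if S.lp h = l then S.sg h • (b k - b h) else 0)
      + (if S.lp k = l then S.sg k • (b h - b k) else 0) := by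
  by_cases hk : h = k
  · subst hk
    simp
  unfold dev
  have key : ∀ g : H, (if S.lp g = l then S.sg g • (b ∘ Equiv.swap h k) g else 0)
      = (if S.lp g = l then S.sg g • b g else 0)
        + ((if g = h then (if S.lp h = l then S.sg h • (b k - b h) else 0) else 0)
        + (if g = k then (if S.lp k = l then S.sg k • (b h - b k) else 0) else 0)) := by
    intro g
    by_cases hg : g = h
    · subst hg
      by_cases hl : S.lp g = l
      · simp [hl, hk, smul_sub]
      · simp [hl, hk]
    · by_cases hg' : g = k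
      · subst hg'
        by_cases hl : S.lp g = l
        · simp [hl, hg, smul_sub]
        · simp [hl, hg]
      · simp [hg, hg', Equiv.swap_apply_of_ne_of_ne hg hg']
  rw [Finset.sum_congr rfl fun g _ => key g, Finset.sum_add_distrib, Finset.sum_add_distrib]
  simp only [Finset.sum_ite_eq', Finset.mem_univ, if_true]
  abel

omit [Fintype L] in
theorem dev_edge (S : Sys A V H L) (b : H → A) {l : L} {h1 h2 : H} (hne : h1 ≠ h2)
    (hl : ∀ h, S.lp h = l ↔ h = h1 ∨ h = h2) :
    dev S b l = S.sg h1 • b h1 + S.sg h2 • b h2 - S.c l := by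
  unfold dev
  congr 1
  rw [← Finset.sum_filter]
  have : (univ.filter fun h => S.lp h = l) = {h1, h2} := by
    ext h
    simp [hl h]
  rw [this, Finset.sum_pair hne]

omit [Fintype L] in
theorem dev_triple (S : Sys A V H L) (b : H → A) {l : L} {h1 h2 h3 : H} (h12 : h1 ≠ h2)
    (h13 : h1 ≠ h3) (h23 : h2 ≠ h3) (hl : ∀ h, S.lp h = l ↔ h = h1 ∨ h = h2 ∨ h = h3) :
    dev S b l = S.sg h1 • b h1 + S.sg h2 • b h2 + S.sg h3 • b h3 - S.c l := by
  unfold dev
  congr 1
  rw [← Finset.sum_filter]
  have : (univ.filter fun h => S.lp h = l) = {h1, h2, h3} := by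
    ext h
    simp [hl h]
  rw [this, Finset.sum_insert (by simp [h12, h13]), Finset.sum_pair h23, add_assoc]

omit [Fintype H] [Fintype L] in
theorem smul_sg {S : Sys A V H L} (hS : Good S) (h : H) (a : A) : S.sg h • (S.sg h • a) = a := by
  rcases hS.sgn h with h1 | h1 <;> simp [h1]

omit [Fintype H] [Fintype L] in
theorem sg_smul_eq_zero {S : Sys A V H L} (hS : Good S) (h : H) {a : A} (ha : S.sg h • a = 0) :
    a = 0 := by
  rw [← smul_sg hS h a, ha, smul_zero]

omit [AddCommGroup A] [Fintype H] [Fintype L] in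
theorem not_edge_triple {S : Sys A V H L} {l : L} (h : IsEdge S l) (h' : IsTriple S l) :
    False := by
  obtain ⟨h1, h2, -, -, hl⟩ := h
  obtain ⟨k1, k2, k3, h12, h13, h23, -, -, hl'⟩ := h'
  have e1 := (hl k1).1 ((hl' k1).2 (by simp))
  have e2 := (hl k2).1 ((hl' k2).2 (by simp))
  have e3 := (hl k3).1 ((hl' k3).2 (by simp))
  have n12 : k1 ≠ k2 := fun e => h12 (by rw [e])
  have n13 : k1 ≠ k3 := fun e => h13 (by rw [e])
  have n23 : k2 ≠ k3 := fun e => h23 (by rw [e])
  rcases e1 with e1 | e1 <;> rcases e2 with e2 | e2 <;> rcases e3 with e3 | e3 <;> simp_all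

omit [Fintype H] [Fintype L] in
/-- every loop has a half-edge -/
theorem exists_half {S : Sys A V H L} (hS : Good S) (l : L) : ∃ h, S.lp h = l := by
  rcases hS.typ l with ⟨h1, h2, -, -, hl⟩ | ⟨h1, h2, h3, -, -, -, -, -, hl⟩
  · exact ⟨h1, (hl h1).2 (by simp)⟩
  · exact ⟨h1, (hl h1).2 (by simp)⟩

omit [AddCommGroup A] [Fintype H] [Fintype L] in
/-- a half-edge of an edge and a different half-edge of the same edge: opposite signs, no others -/
theorem edge_pair {S : Sys A V H L} {h k : H} (he : IsEdge S (S.lp h)) (hk : S.lp k = S.lp h)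
    (hne : h ≠ k) : S.sg h + S.sg k = 0 ∧ ∀ g, S.lp g = S.lp h → g = h ∨ g = k := by
  obtain ⟨h1, h2, h12, hs, hl⟩ := he
  have e1 := (hl h).1 rfl
  have e2 := (hl k).1 hk
  rcases e1 with e1 | e1 <;> rcases e2 with e2 | e2
  · exact absurd (e1.trans e2.symm) hne
  · rw [e1, e2]
    refine ⟨hs, fun g hg => ?_⟩
    exact (hl g).1 (by rw [hg, e1])
  · rw [e1, e2]
    refine ⟨by rw [add_comm]; exact hs, fun g hg => ?_⟩
    exact ((hl g).1 (by rw [hg, e1])).symm
  · exact absurd (e1.trans e2.symm) hne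

omit [AddCommGroup A] [Fintype H] [Fintype L] in
/-- two different half-edges of a triple: different vertices, equal signs, a third half-edge -/
theorem triple_pair {S : Sys A V H L} {h k : H} (he : IsTriple S (S.lp h))
    (hk : S.lp k = S.lp h) (hne : h ≠ k) :
    S.vx h ≠ S.vx k ∧ S.sg h = S.sg k ∧ ∃ g, S.lp g = S.lp h ∧ g ≠ h ∧ g ≠ k ∧
      S.vx g ≠ S.vx h ∧ S.vx g ≠ S.vx k ∧ S.sg g = S.sg h ∧
      ∀ g', S.lp g' = S.lp h → g' = h ∨ g' = k ∨ g' = g := by
  obtain ⟨h1, h2, h3, v12, v13, v23, s12, s23, hl⟩ := he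
  have n12 : h1 ≠ h2 := fun e => v12 (by rw [e])
  have n13 : h1 ≠ h3 := fun e => v13 (by rw [e])
  have n23 : h2 ≠ h3 := fun e => v23 (by rw [e])
  have l1 := (hl h1).2 (by simp)
  have l2 := (hl h2).2 (by simp)
  have l3 := (hl h3).2 (by simp)
  have e1 := (hl h).1 rfl
  have e2 := (hl k).1 hk
  have s13 : S.sg h1 = S.sg h3 := s12.trans s23
  generalize S.lp h = l at *
  rcases e1 with rfl | rfl | rfl <;> rcases e2 with rfl | rfl | rfl
  · exact absurd rfl hne
  · exact ⟨v12, s12, h3, l3, n13.symm, n23.symm, v13.symm, v23.symm, s13.symm,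
      fun g' hg' => (hl g').1 hg'⟩
  · exact ⟨v13, s13, h2, l2, n12.symm, n23, v12.symm, v23, s12.symm,
      fun g' hg' => by have := (hl g').1 hg'; tauto⟩
  · exact ⟨v12.symm, s12.symm, h3, l3, n23.symm, n13.symm, v23.symm, v13.symm, s23.symm,
      fun g' hg' => by have := (hl g').1 hg'; tauto⟩
  · exact absurd rfl hne
  · exact ⟨v23, s23, h1, l1, n12, n13, v12, v13, s12,
      fun g' hg' => by have := (hl g').1 hg'; tauto⟩
  · exact ⟨v13.symm, s13.symm, h2, l2, n23, n12.symm, v23, v12.symm, s23,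
      fun g' hg' => by have := (hl g').1 hg'; tauto⟩
  · exact ⟨v23.symm, s23.symm, h1, l1, n13, n12, v13, v12, s13,
      fun g' hg' => by have := (hl g').1 hg'; tauto⟩
  · exact absurd rfl hne

omit [AddCommGroup A] [Fintype H] [Fintype L] in
/-- an edge has a second half-edge -/
theorem edge_other {S : Sys A V H L} {h : H} (he : IsEdge S (S.lp h)) :
    ∃ k, S.lp k = S.lp h ∧ h ≠ k := by
  obtain ⟨h1, h2, h12, hs, hl⟩ := he
  rcases (hl h).1 rfl with e | e
  · exact ⟨h2, (hl h2).2 (by simp), by rw [e]; exact h12⟩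
  · exact ⟨h1, (hl h1).2 (by simp), by rw [e]; exact h12.symm⟩

omit [AddCommGroup A] [Fintype H] [Fintype L] in
/-- a triple has a second half-edge -/
theorem triple_other {S : Sys A V H L} {h : H} (he : IsTriple S (S.lp h)) :
    ∃ k, S.lp k = S.lp h ∧ h ≠ k := by
  obtain ⟨h1, h2, h3, v12, v13, v23, s12, s23, hl⟩ := he
  have n12 : h1 ≠ h2 := fun e => v12 (by rw [e])
  have n13 : h1 ≠ h3 := fun e => v13 (by rw [e])
  rcases (hl h).1 rfl with e | e | e
  · exact ⟨h2, (hl h2).2 (by simp), by rw [e]; exact n12⟩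
  · exact ⟨h1, (hl h1).2 (by simp), by rw [e]; exact n12.symm⟩
  · exact ⟨h1, (hl h1).2 (by simp), by rw [e]; exact n13.symm⟩

end Pool.Agent.Helper15.OS
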