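import Pool.Agent.Helper15.OS.Same

/-!
OS-PSI.  Counting: how the potential changes.
`psi_lt`: the closed loops of t are those of b without r and with g; the fully resonant triples of t
are among those of b, with the possible exception of r; the elements of D are fully resonant in b
and not in t.  So (cardinalities of filters) closed triples: t = b - [r triple] + [g triple];
FR: t ≤ b - |D| + [r triple].
`psi_lt'`: same closed loops, FR t ⊂ FR b strictly.
-/

namespace Pool.Agent.Helper15.OS

open Finset
open scoped Classical

variable {A V H L : Type*} [AddCommGroup A] [Fintype H] [Fintype L]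

theorem psi_lt {S : Sys A V H L} {b t : H → A} {r g : L}
    (hcl : ∀ l, l ≠ r → l ≠ g → (dev S t l = 0 ↔ dev S b l = 0))
    (hr : dev S b r = 0) (hr' : dev S t r ≠ 0) (hg : dev S b g ≠ 0) (hg' : dev S t g = 0)
    (hFR : ∀ l, l ≠ r → FR S t l → FR S b l) (D : Finset L)
    (hD : ∀ l ∈ D, FR S b l ∧ ¬ FR S t l)
    (hcount : 3 * (if IsTriple S g then 1 else 0) + 2 * (if IsTriple S r then 1 else 0) <
      3 * (if IsTriple S r then 1 else 0) + 2 * D.card) : Psi S t < Psi S b := by
  have hrg : r ≠ g := by
    intro h0
    apply hg
    rw [← h0]
    exact hr
  have h1 : (univ.filter fun l => IsTriple S l ∧ dev S t l = 0).card +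
      (if IsTriple S r then 1 else 0) ≤
      (univ.filter fun l => IsTriple S l ∧ dev S b l = 0).card +
      (if IsTriple S g then 1 else 0) := by
    by_cases hT : IsTriple S r
    · rw [if_pos hT]
      have hsub : (univ.filter fun l => IsTriple S l ∧ dev S t l = 0) ⊆
          ((univ.filter fun l => IsTriple S l ∧ dev S b l = 0).erase r) ∪
          (if IsTriple S g then {g} else ∅) := by
        intro l hl
        rw [mem_filter] at hl
        rw [mem_union, mem_erase, mem_filter]
        by_cases hlg : l = g
        · right
          rw [if_pos (hlg ▸ hl.2.1)]
          rw [mem_singleton]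
          exact hlg
        · left
          have hlr : l ≠ r := by
            intro h0
            apply hr'
            rw [← h0]
            exact hl.2.2
          exact ⟨hlr, mem_univ _, hl.2.1, (hcl l hlr hlg).1 hl.2.2⟩
      have hc := (card_le_card hsub).trans (card_union_le _ _)
      have hmem : r ∈ (univ.filter fun l => IsTriple S l ∧ dev S b l = 0) := by
        rw [mem_filter]
        exact ⟨mem_univ _, hT, hr⟩
      have he := card_erase_add_one hmem
      have hi : (if IsTriple S g then ({g} : Finset L) else ∅).card =
          (if IsTriple S g then 1 else 0) := by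
        split_ifs
        · exact card_singleton _
        · exact card_empty
      rw [hi] at hc
      omega
    · rw [if_neg hT]
      have hsub : (univ.filter fun l => IsTriple S l ∧ dev S t l = 0) ⊆
          ((univ.filter fun l => IsTriple S l ∧ dev S b l = 0)) ∪
          (if IsTriple S g then {g} else ∅) := by
        intro l hl
        rw [mem_filter] at hl
        rw [mem_union, mem_filter]
        by_cases hlg : l = g
        · right
          rw [if_pos (hlg ▸ hl.2.1)]
          rw [mem_singleton]
          exact hlg
        · left
          have hlr : l ≠ r := by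
            intro h0
            apply hr'
            rw [← h0]
            exact hl.2.2
          exact ⟨mem_univ _, hl.2.1, (hcl l hlr hlg).1 hl.2.2⟩
      have hc := (card_le_card hsub).trans (card_union_le _ _)
      have hi : (if IsTriple S g then ({g} : Finset L) else ∅).card =
          (if IsTriple S g then 1 else 0) := by
        split_ifs
        · exact card_singleton _
        · exact card_empty
      rw [hi] at hc
      omega
  have h2 : (univ.filter fun l => FR S t l).card + D.card ≤
      (univ.filter fun l => FR S b l).card + (if IsTriple S r then 1 else 0) := by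
    have hsub : (univ.filter fun l => FR S t l) ⊆
        ((univ.filter fun l => FR S b l) \ D) ∪ (if IsTriple S r then {r} else ∅) := by
      intro l hl
      rw [mem_filter] at hl
      rw [mem_union, mem_sdiff, mem_filter]
      by_cases hlr : l = r
      · right
        rw [if_pos (hlr ▸ hl.2.1)]
        rw [mem_singleton]
        exact hlr
      · left
        exact ⟨⟨mem_univ _, hFR l hlr hl.2⟩, fun h0 => (hD l h0).2 hl.2⟩
    have hc := (card_le_card hsub).trans (card_union_le _ _)
    have hDs : D ⊆ (univ.filter fun l => FR S b l) := by
      intro l hl
      rw [mem_filter]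
      exact ⟨mem_univ _, (hD l hl).1⟩
    have he := card_sdiff_add_card_eq_card hDs
    have hi : (if IsTriple S r then ({r} : Finset L) else ∅).card =
        (if IsTriple S r then 1 else 0) := by
      split_ifs
      · exact card_singleton _
      · exact card_empty
    rw [hi] at hc
    omega
  unfold Psi
  omega

theorem psi_lt' {S : Sys A V H L} {b t : H → A}
    (hcl : ∀ l, dev S t l = 0 ↔ dev S b l = 0) (hFR : ∀ l, FR S t l → FR S b l)
    {l : L} (hl : FR S b l) (hl' : ¬ FR S t l) : Psi S t < Psi S b := by
  have h1 : (univ.filter fun l => IsTriple S l ∧ dev S t l = 0) =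
      (univ.filter fun l => IsTriple S l ∧ dev S b l = 0) := by
    apply filter_congr
    intro x _
    rw [hcl x]
  have h2 : (univ.filter fun l => FR S t l).card < (univ.filter fun l => FR S b l).card := by
    apply card_lt_card
    rw [Finset.ssubset_iff_of_subset]
    · refine ⟨l, ?_, ?_⟩
      · rw [mem_filter]
        exact ⟨mem_univ _, hl⟩
      · rw [mem_filter]
        exact fun h0 => hl' h0.2
    · intro x hx
      rw [mem_filter] at hx ⊢
      exact ⟨mem_univ _, hFR x hx.2⟩
  unfold Psi
  rw [h1]
  omega

end Pool.Agent.Helper15.OS
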