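import Pool.Agent.Helper15.OS.NotFR
import Pool.Agent.Helper15.OS.PsiL

/-!
OS-FIVE.
`five`: in an optimal labelling an edge with a bad half-edge at v has no triple as root loop: apply
`psi_lt` to b and t = land v h with r = lp (rt v), g = lp h, D = ∅ (0 + 2 < 3).
`noFR`: if h is bad at v and its loop is an edge then no child loop on the path to v is FR in b: r is an
edge by `five` and `Good.typ`, D = {lp (arr w)}: 0 + 0 < 0 + 2.
-/

namespace Pool.Agent.Helper15.OS

open Finset
open scoped Classical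

variable {A V H L : Type*} [AddCommGroup A] [Fintype H] [Fintype L]

theorem five {S : Sys A V H L} (hS : Good S) {b : H → A} (hb : Opt S b)
    {F : Forest S b} {v : V} {h : H} (hh : F.Bad v h) (he : IsEdge S (S.lp h)) :
    ¬ IsTriple S (S.lp (F.rt v)) := by
  intro ht
  obtain ⟨-, h2, h3, h4, h5, h6⟩ := land_spec hS hb.1 hh
  have h7 := hb.2 _ h2 h3
  have hng : ¬ IsTriple S (S.lp h) := fun h' => not_edge_triple he h'
  have := psi_lt (S := S) (b := b) (t := F.land v h) (r := S.lp (F.rt v)) (g := S.lp h) h6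
    (F.rt_closed hh.mem) h5 (hh.open' hS hb.1) h4
    (fun l hl hl' => (land_FR hS hb.1 hh hl' hl).1) ∅ (by simp) (by simp [ht, hng])
  omega

theorem noFR {S : Sys A V H L} (hS : Good S) {b : H → A} (hb : Opt S b)
    {F : Forest S b} {v w : V} {h : H} (hh : F.Bad v h) (he : IsEdge S (S.lp h))
    (hw : w ∈ F.anc v) (hc : dev S b (S.lp (F.arr w)) ≠ 0) : ¬ FR S b (S.lp (F.arr w)) := by
  intro ht
  obtain ⟨-, h2, h3, h4, h5, h6⟩ := land_spec hS hb.1 hh
  have h7 := hb.2 _ h2 h3
  have hng : ¬ IsTriple S (S.lp h) := fun h' => not_edge_triple he h'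
  have hr := five hS hb hh he
  have := psi_lt (S := S) (b := b) (t := F.land v h) (r := S.lp (F.rt v)) (g := S.lp h) h6
    (F.rt_closed hh.mem) h5 (hh.open' hS hb.1) h4
    (fun l hl hl' => (land_FR hS hb.1 hh hl' hl).1) {S.lp (F.arr w)}
    (by
      intro l hl
      rw [Finset.mem_singleton] at hl
      subst hl
      exact ⟨ht, land_notFR hS hb.1 hh hw hc⟩) (by simp [hr, hng])
  omega

end Pool.Agent.Helper15.OS
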