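import Pool.Agent.Helper15.OS.Same

/-!
OS-FOREST.  Elementary facts on forests.  `Forest.ind` is induction on (anc v).card: for a child v
with parent u = vx (hp v), anc v = insert v (anc u) with v ∉ anc u.  All the others follow by `ind`,
except `anc_ind` (by induction on the end vertex: P v gives P u, and anc v = insert v (anc u)).
-/

namespace Pool.Agent.Helper15.OS

open Finset
open scoped Classical

variable {A V H L : Type*} [AddCommGroup A] [Fintype H] [Fintype L]

namespace Forest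

variable {S : Sys A V H L} {b : H → A} (F : Forest S b)

theorem ind {P : V → Prop} (hroot : ∀ v ∈ F.X, dev S b (S.lp (F.arr v)) = 0 → P v)
    (hchild : ∀ v ∈ F.X, dev S b (S.lp (F.arr v)) ≠ 0 → P (S.vx (F.hp v)) → P v) :
    ∀ v ∈ F.X, P v := by
  have key : ∀ n : ℕ, ∀ v ∈ F.X, (F.anc v).card = n → P v := by
    intro n
    induction n using Nat.strong_induction_on with
    | _ n ih =>
      intro v hv hn
      by_cases h0 : dev S b (S.lp (F.arr v)) = 0
      · exact hroot v hv h0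
      · obtain ⟨_, hu, _, hanc, hnot, _, _⟩ := F.child v hv h0
        refine hchild v hv h0 (ih _ ?_ _ hu rfl)
        rw [← hn, hanc, Finset.card_insert_of_notMem hnot]
        exact Nat.lt_succ_self _
  intro v hv
  exact key _ v hv rfl

theorem self_mem {v : V} (hv : v ∈ F.X) : v ∈ F.anc v := by
  by_cases h0 : dev S b (S.lp (F.arr v)) = 0
  · rw [(F.root v hv h0).1]
    exact mem_singleton_self v
  · obtain ⟨_, _, _, hanc, _, _, _⟩ := F.child v hv h0
    rw [hanc]
    exact mem_insert_self _ _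

theorem anc_trans {v w : V} (hv : v ∈ F.X) (hw : w ∈ F.anc v) : F.anc w ⊆ F.anc v := by
  revert w
  refine F.ind (P := fun v => ∀ {w : V}, w ∈ F.anc v → F.anc w ⊆ F.anc v) ?_ ?_ v hv
  · intro v hv h0 w hw
    rw [(F.root v hv h0).1, mem_singleton] at hw
    rw [hw]
  · intro v hv h0 ih w hw
    obtain ⟨_, _, _, hanc, _, _, _⟩ := F.child v hv h0
    rw [hanc, mem_insert] at hw
    rcases hw with hw | hw
    · rw [hw]
    · rw [hanc]
      exact (ih hw).trans (subset_insert _ _)

/-- the parent of an ancestor of `v` is an ancestor of `v`, different from `v` -/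
theorem par_mem {v w : V} (hv : v ∈ F.X) (hw : w ∈ F.anc v)
    (hc : dev S b (S.lp (F.arr w)) ≠ 0) : S.vx (F.hp w) ∈ F.anc v ∧ S.vx (F.hp w) ≠ v := by
  revert w
  refine F.ind (P := fun v => ∀ {w : V}, w ∈ F.anc v → dev S b (S.lp (F.arr w)) ≠ 0 →
    S.vx (F.hp w) ∈ F.anc v ∧ S.vx (F.hp w) ≠ v) ?_ ?_ v hv
  · intro v hv h0 w hw hc
    rw [(F.root v hv h0).1, mem_singleton] at hw
    rw [hw] at hc
    exact absurd h0 hc
  · intro v hv h0 ih w hw hc
    obtain ⟨_, hu, _, hanc, hnot, _, _⟩ := F.child v hv h0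
    rw [hanc, mem_insert] at hw
    have key : ∀ z : V, z ∈ F.anc (S.vx (F.hp v)) → z ∈ F.anc v ∧ z ≠ v := by
      intro z hz
      refine ⟨?_, ?_⟩
      · rw [hanc]
        exact mem_insert_of_mem hz
      · intro h
        rw [h] at hz
        exact hnot hz
    rcases hw with hw | hw
    · rw [hw]
      exact key _ (F.self_mem hu)
    · exact key _ (ih hw hc).1

theorem anc_antisymm {v w : V} (hv : v ∈ F.X) (hw : w ∈ F.anc v) (hvw : v ∈ F.anc w) :
    v = w := by
  by_cases h0 : dev S b (S.lp (F.arr v)) = 0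
  · rw [(F.root v hv h0).1, mem_singleton] at hw
    exact hw.symm
  · obtain ⟨_, hu, _, hanc, hnot, _, _⟩ := F.child v hv h0
    rw [hanc, mem_insert] at hw
    rcases hw with hw | hw
    · exact hw.symm
    · exact absurd (F.anc_trans hu hw hvw) hnot

/-- two ancestors of `v` are comparable -/
theorem anc_total {v w w' : V} (hv : v ∈ F.X) (hw : w ∈ F.anc v) (hw' : w' ∈ F.anc v) :
    w ∈ F.anc w' ∨ w' ∈ F.anc w := by
  revert w w'
  refine F.ind (P := fun v => ∀ {w w' : V}, w ∈ F.anc v → w' ∈ F.anc v →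
    w ∈ F.anc w' ∨ w' ∈ F.anc w) ?_ ?_ v hv
  · intro v hv h0 w w' hw hw'
    rw [(F.root v hv h0).1, mem_singleton] at hw hw'
    rw [hw, hw']
    exact Or.inl (F.self_mem hv)
  · intro v hv h0 ih w w' hw hw'
    obtain ⟨_, _, _, hanc, _, _, _⟩ := F.child v hv h0
    have hw2 := hw
    have hw2' := hw'
    rw [hanc, mem_insert] at hw2 hw2'
    rcases hw2 with h1 | h1
    · rw [h1]
      exact Or.inr hw'
    · rcases hw2' with h2 | h2
      · rw [h2]
        exact Or.inl hw
      · exact ih h1 h2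

/-- induction upwards along the path from `v` to its root -/
theorem anc_ind {v : V} (hv : v ∈ F.X) {P : V → Prop} (h0 : P v)
    (hs : ∀ w ∈ F.anc v, dev S b (S.lp (F.arr w)) ≠ 0 → P w → P (S.vx (F.hp w))) :
    ∀ w ∈ F.anc v, P w := by
  revert h0 hs
  refine F.ind (P := fun v => P v →
    (∀ w ∈ F.anc v, dev S b (S.lp (F.arr w)) ≠ 0 → P w → P (S.vx (F.hp w))) →
    ∀ w ∈ F.anc v, P w) ?_ ?_ v hv
  · intro v hv h0 hP _ w hw
    rw [(F.root v hv h0).1, mem_singleton] at hw
    rw [hw]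
    exact hP
  · intro v hv h0 ih hP hs w hw
    obtain ⟨_, _, _, hanc, _, _, _⟩ := F.child v hv h0
    rw [hanc, mem_insert] at hw
    rcases hw with hw | hw
    · rw [hw]
      exact hP
    · refine ih (hs v (F.self_mem hv) h0 hP) ?_ w hw
      intro z hz
      refine hs z ?_
      rw [hanc]
      exact mem_insert_of_mem hz

theorem rt_eq {v w : V} (hv : v ∈ F.X) (hw : w ∈ F.anc v) : F.rt w = F.rt v := by
  revert w
  refine F.ind (P := fun v => ∀ {w : V}, w ∈ F.anc v → F.rt w = F.rt v) ?_ ?_ v hv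
  · intro v hv h0 w hw
    rw [(F.root v hv h0).1, mem_singleton] at hw
    rw [hw]
  · intro v hv h0 ih w hw
    obtain ⟨_, _, _, hanc, _, hrt, _⟩ := F.child v hv h0
    rw [hanc, mem_insert] at hw
    rcases hw with hw | hw
    · rw [hw]
    · rw [hrt]
      exact ih hw

theorem rt_closed {v : V} (hv : v ∈ F.X) : dev S b (S.lp (F.rt v)) = 0 := by
  refine F.ind (P := fun v => dev S b (S.lp (F.rt v)) = 0) ?_ ?_ v hv
  · intro v hv h0
    rw [(F.root v hv h0).2.1]
    exact h0
  · intro v hv h0 ih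
    obtain ⟨_, _, _, _, _, hrt, _⟩ := F.child v hv h0
    rw [hrt]
    exact ih

theorem rt_mem {v : V} (hv : v ∈ F.X) : S.vx (F.rt v) ∈ F.anc v := by
  refine F.ind (P := fun v => S.vx (F.rt v) ∈ F.anc v) ?_ ?_ v hv
  · intro v hv h0
    rw [(F.root v hv h0).2.1, F.arr_vx v hv]
    exact F.self_mem hv
  · intro v hv h0 ih
    obtain ⟨_, _, _, hanc, _, hrt, _⟩ := F.child v hv h0
    rw [hrt, hanc]
    exact mem_insert_of_mem ih

theorem arr_rt {v : V} (hv : v ∈ F.X) : F.arr (S.vx (F.rt v)) = F.rt v := by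
  refine F.ind (P := fun v => F.arr (S.vx (F.rt v)) = F.rt v) ?_ ?_ v hv
  · intro v hv h0
    rw [(F.root v hv h0).2.1, F.arr_vx v hv]
  · intro v hv h0 ih
    obtain ⟨_, _, _, _, _, hrt, _⟩ := F.child v hv h0
    rw [hrt]
    exact ih

/-- an ancestor which is a root is the root of the path -/
theorem root_eq {v w : V} (hv : v ∈ F.X) (hw : w ∈ F.anc v)
    (hc : dev S b (S.lp (F.arr w)) = 0) : F.arr w = F.rt v := by
  rw [← F.rt_eq hv hw]
  exact (F.root w (F.anc_sub v hv hw) hc).2.1.symm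

theorem hp_ne_arr {v : V} (hv : v ∈ F.X) (hc : dev S b (S.lp (F.arr v)) ≠ 0) :
    F.hp v ≠ F.arr v := by
  intro h
  have h1 := (F.par_mem hv (F.self_mem hv) hc).2
  rw [h, F.arr_vx v hv] at h1
  exact h1 rfl

theorem pi_vx {v : V} (hv : v ∈ F.X) (h : H) : S.vx (F.pi v h) = S.vx h := by
  revert h
  refine F.ind (P := fun v => ∀ h, S.vx (F.pi v h) = S.vx h) ?_ ?_ v hv
  · intro v hv h0 h
    rw [(F.root v hv h0).2.2]
    rfl
  · intro v hv h0 ih h
    obtain ⟨_, hu, _, _, _, _, hpi⟩ := F.child v hv h0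
    rw [hpi, Equiv.Perm.mul_apply, ih]
    by_cases h1 : h = F.arr (S.vx (F.hp v))
    · rw [h1, Equiv.swap_apply_left, F.arr_vx _ hu]
    · by_cases h2 : h = F.hp v
      · rw [h2, Equiv.swap_apply_right, F.arr_vx _ hu]
      · rw [Equiv.swap_apply_of_ne_of_ne h1 h2]

/-- only labels at proper ancestors of `v` are moved -/
theorem pi_fix {v : V} (hv : v ∈ F.X) {h : H} (hh : S.vx h ∉ F.anc v ∨ S.vx h = v) :
    F.pi v h = h := by
  revert hh
  refine F.ind (P := fun v => S.vx h ∉ F.anc v ∨ S.vx h = v → F.pi v h = h) ?_ ?_ v hv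
  · intro v hv h0 _
    rw [(F.root v hv h0).2.2]
    rfl
  · intro v hv h0 ih hh
    obtain ⟨_, hu, _, hanc, hnot, _, hpi⟩ := F.child v hv h0
    have hn : S.vx h ∉ F.anc (S.vx (F.hp v)) := by
      rcases hh with hh | hh
      · intro hm
        apply hh
        rw [hanc]
        exact mem_insert_of_mem hm
      · rw [hh]
        exact hnot
    have hne : S.vx h ≠ S.vx (F.hp v) := by
      intro he
      rw [he] at hn
      exact hn (F.self_mem hu)
    have h1 : h ≠ F.arr (S.vx (F.hp v)) := by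
      intro he
      apply hne
      rw [he, F.arr_vx _ hu]
    have h2 : h ≠ F.hp v := by
      intro he
      apply hne
      rw [he]
    rw [hpi, Equiv.Perm.mul_apply, Equiv.swap_apply_of_ne_of_ne h1 h2]
    exact ih (Or.inl hn)

/-- only the half-edges of the path are moved -/
theorem pi_else {v : V} (hv : v ∈ F.X) {h : H}
    (h1 : ∀ w ∈ F.anc v, h ≠ F.arr w)
    (h2 : ∀ w ∈ F.anc v, dev S b (S.lp (F.arr w)) ≠ 0 → h ≠ F.hp w) : F.pi v h = h := by
  revert h1 h2
  refine F.ind (P := fun v => (∀ w ∈ F.anc v, h ≠ F.arr w) →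
    (∀ w ∈ F.anc v, dev S b (S.lp (F.arr w)) ≠ 0 → h ≠ F.hp w) → F.pi v h = h) ?_ ?_ v hv
  · intro v hv h0 _ _
    rw [(F.root v hv h0).2.2]
    rfl
  · intro v hv h0 ih h1 h2
    obtain ⟨_, hu, _, hanc, _, _, hpi⟩ := F.child v hv h0
    have hsub : F.anc (S.vx (F.hp v)) ⊆ F.anc v := by
      rw [hanc]
      exact subset_insert _ _
    rw [hpi, Equiv.Perm.mul_apply,
      Equiv.swap_apply_of_ne_of_ne (h1 _ (hsub (F.self_mem hu))) (h2 v (F.self_mem hv) h0)]
    exact ih (fun w hw => h1 w (hsub hw)) (fun w hw => h2 w (hsub hw))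

theorem pi_hp {v w : V} (hv : v ∈ F.X) (hw : w ∈ F.anc v)
    (hc : dev S b (S.lp (F.arr w)) ≠ 0) : F.pi v (F.hp w) = F.arr (S.vx (F.hp w)) := by
  revert hw
  refine F.ind (P := fun v => w ∈ F.anc v → F.pi v (F.hp w) = F.arr (S.vx (F.hp w)))
    ?_ ?_ v hv
  · intro v hv h0 hw
    rw [(F.root v hv h0).1, mem_singleton] at hw
    rw [hw] at hc
    exact absurd h0 hc
  · intro v hv h0 ih hw
    obtain ⟨_, hu, _, hanc, _, _, hpi⟩ := F.child v hv h0
    rw [hanc, mem_insert] at hw
    rcases hw with hw | hw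
    · subst hw
      rw [hpi, Equiv.Perm.mul_apply, Equiv.swap_apply_right]
      exact F.pi_fix hu (Or.inr (F.arr_vx _ hu))
    · have hne := (F.par_mem hu hw hc).2
      have h1 : F.hp w ≠ F.arr (S.vx (F.hp v)) := by
        intro he
        apply hne
        rw [he, F.arr_vx _ hu]
      have h2 : F.hp w ≠ F.hp v := by
        intro he
        apply hne
        rw [he]
      rw [hpi, Equiv.Perm.mul_apply, Equiv.swap_apply_of_ne_of_ne h1 h2]
      exact ih hw

/-- at a proper ancestor `w` of `v` the half-edge `arr w` gets the label of `hp w'`, where `w'` is the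
next vertex of the path -/
theorem pi_arr {v w : V} (hv : v ∈ F.X) (hw : w ∈ F.anc v) (hne : w ≠ v) :
    ∃ w' ∈ F.anc v, dev S b (S.lp (F.arr w')) ≠ 0 ∧ S.vx (F.hp w') = w ∧
      F.pi v (F.arr w) = F.hp w' := by
  revert hw hne
  refine F.ind (P := fun v => w ∈ F.anc v → w ≠ v →
    ∃ w' ∈ F.anc v, dev S b (S.lp (F.arr w')) ≠ 0 ∧ S.vx (F.hp w') = w ∧
      F.pi v (F.arr w) = F.hp w') ?_ ?_ v hv
  · intro v hv h0 hw hne
    rw [(F.root v hv h0).1, mem_singleton] at hw
    exact absurd hw hne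
  · intro v hv h0 ih hw hne
    obtain ⟨_, hu, _, hanc, _, _, hpi⟩ := F.child v hv h0
    rw [hanc, mem_insert] at hw
    have hw := hw.resolve_left hne
    by_cases hwu : w = S.vx (F.hp v)
    · refine ⟨v, F.self_mem hv, h0, hwu.symm, ?_⟩
      rw [hpi, Equiv.Perm.mul_apply, hwu, Equiv.swap_apply_left]
      exact F.pi_fix hu (Or.inr rfl)
    · obtain ⟨w', hw', hc', hvx, hpw⟩ := ih hw hwu
      have hwX : w ∈ F.X := F.anc_sub _ hu hw
      have h1 : F.arr w ≠ F.arr (S.vx (F.hp v)) := by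
        intro he
        apply hwu
        rw [← F.arr_vx w hwX, he, F.arr_vx _ hu]
      have h2 : F.arr w ≠ F.hp v := by
        intro he
        apply hwu
        rw [← F.arr_vx w hwX, he]
      refine ⟨w', ?_, hc', hvx, ?_⟩
      · rw [hanc]
        exact mem_insert_of_mem hw'
      · rw [hpi, Equiv.Perm.mul_apply, Equiv.swap_apply_of_ne_of_ne h1 h2]
        exact hpw

end Forest

end Pool.Agent.Helper15.OS
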