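import Pool.Agent.Helper15.OS.Run

/-!
OS-LAND.  Landing on the loop of a bad half-edge h at v: `F.land v h = (b ∘ pi v) ∘ swap (arr v) h`.
`land_spec`: `run` with t = b, then `move` with h := arr v (label b (arr v), closed) and k := h
(`(b ∘ pi v) h = b h` by `pi_fix`).  The loop of h is not closed in b (else `closed_mem` makes v a root
and P1 gives b h = b (arr v)).
`land_h`: the label of h is b (arr v).  `land_else`, `land_off`: unchanged labels.
`land_hp`: for a child w on the path the half-edge hp w has the label of arr of its vertex.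
`land_arr`: for w on the path arr w has the label of another half-edge at w, different from b (arr w)
(the next hp, or h if w = v).
`resonance`: dev b (lp h) = sg h • (b h - b (arr v)): 0 = dev (land) (lp h), whose labels are those of
b except at h.
`run_spec`: `run` with t = b.
-/

namespace Pool.Agent.Helper15.OS

open Finset
open scoped Classical

variable {A V H L : Type*} [AddCommGroup A] [Fintype H] [Fintype L]

theorem run_spec {S : Sys A V H L} (hS : Good S) {b : H → A} (hb : Min S b) (F : Forest S b)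
    {v : V} (hv : v ∈ F.X) :
    Reach S b (b ∘ F.pi v) ∧ dev S (b ∘ F.pi v) (S.lp (F.arr v)) = 0 ∧
      (b ∘ F.pi v) (F.arr v) = b (F.arr v) := by
  obtain ⟨h1, -, -, h4, -, -⟩ := run hS F hv hb (fun w _ _ => ⟨rfl, rfl⟩) (F.rt_closed hv)
  refine ⟨h1, h4, ?_⟩
  simp only [Function.comp_apply]
  rw [F.pi_fix hv (Or.inr (F.arr_vx v hv))]

theorem Forest.Bad.open' {S : Sys A V H L} (hS : Good S) {b : H → A} (hb : Min S b)
    {F : Forest S b} {v : V} {h : H} (hh : F.Bad v h) : dev S b (S.lp h) ≠ 0 := by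
  intro h0
  obtain ⟨hX, hc⟩ := F.closed_mem h h0
  rw [hh.vx] at hX hc
  refine hh.ne (P1 hS hb ?_ h0 hc)
  rw [hh.vx, F.arr_vx v hX]

private theorem land_apply {S : Sys A V H L} {b : H → A} (F : Forest S b) (v : V) (h k : H) :
    F.land v h k = b (F.pi v (Equiv.swap (F.arr v) h k)) := rfl

theorem land_spec {S : Sys A V H L} (hS : Good S) {b : H → A} (hb : Min S b)
    {F : Forest S b} {v : V} {h : H} (hh : F.Bad v h) :
    Reach S b (F.land v h) ∧ Same S b (F.land v h) ∧ Min S (F.land v h) ∧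
      dev S (F.land v h) (S.lp h) = 0 ∧ dev S (F.land v h) (S.lp (F.rt v)) ≠ 0 ∧
      ∀ l, l ≠ S.lp (F.rt v) → l ≠ S.lp h → (dev S (F.land v h) l = 0 ↔ dev S b l = 0) := by
  have hv := hh.mem
  obtain ⟨r1, r2, r3, r4, r5, r6⟩ :=
    run hS F hv hb (fun w _ _ => ⟨rfl, rfl⟩) (F.rt_closed hv)
  have hvx : S.vx (F.arr v) = S.vx h := by rw [F.arr_vx v hv, hh.vx]
  have e1 : (b ∘ F.pi v) (F.arr v) = b (F.arr v) := by
    simp only [Function.comp_apply]
    rw [F.pi_fix hv (Or.inr (F.arr_vx v hv))]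
  have e2 : (b ∘ F.pi v) h = b h := by
    simp only [Function.comp_apply]
    rw [F.pi_fix hv (Or.inr hh.vx)]
  have hne : (b ∘ F.pi v) (F.arr v) ≠ (b ∘ F.pi v) h := by
    rw [e1, e2]; exact fun e => hh.ne e.symm
  obtain ⟨m1, m2, m3, m4, m5, m6, m7, m8⟩ := move hS r3 hvx r4 hne
  have hland : F.land v h = (b ∘ F.pi v) ∘ Equiv.swap (F.arr v) h := rfl
  rw [hland]
  have hrt : S.lp h ≠ S.lp (F.rt v) := by
    have := hh.off _ (F.rt_mem hv)
    rwa [F.arr_rt hv] at this
  refine ⟨Relation.ReflTransGen.tail r1 m3, same_trans r2 m4, m5, m6, ?_, ?_⟩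
  · by_cases hc : dev S b (S.lp (F.arr v)) = 0
    · rw [(F.root v hv hc).2.1]
      exact m7
    · have hra : S.lp (F.rt v) ≠ S.lp (F.arr v) := by
        intro e
        rw [← e] at hc
        exact hc (F.rt_closed hv)
      rw [m8 _ hra (fun e => hrt e.symm)]
      exact (r5 hc).1
  · intro l hl1 hl2
    by_cases hla : l = S.lp (F.arr v)
    · by_cases hc : dev S b (S.lp (F.arr v)) = 0
      · exact absurd (by rw [hla, (F.root v hv hc).2.1]) hl1
      · subst hla
        exact ⟨fun e => absurd e m7, fun e => absurd e hc⟩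
    · rw [m8 l hla hl2]
      exact r6 l hl1 hla

theorem land_h {S : Sys A V H L} {b : H → A} {F : Forest S b} {v : V} {h : H}
    (hh : F.Bad v h) : F.land v h h = b (F.arr v) := by
  rw [land_apply, Equiv.swap_apply_right, F.pi_fix hh.mem (Or.inr (F.arr_vx v hh.mem))]

theorem land_else {S : Sys A V H L} {b : H → A} {F : Forest S b} {v : V} {h k : H}
    (hh : F.Bad v h) (h0 : k ≠ h) (h1 : ∀ w ∈ F.anc v, k ≠ F.arr w)
    (h2 : ∀ w ∈ F.anc v, dev S b (S.lp (F.arr w)) ≠ 0 → k ≠ F.hp w) : F.land v h k = b k := by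
  rw [land_apply, Equiv.swap_apply_of_ne_of_ne (h1 v (F.self_mem hh.mem)) h0,
    F.pi_else hh.mem h1 h2]

theorem land_off {S : Sys A V H L} {b : H → A} {F : Forest S b} {v : V} {h k : H}
    (hh : F.Bad v h) (h0 : S.lp k ≠ S.lp h) (h1 : ∀ w ∈ F.anc v, S.lp k ≠ S.lp (F.arr w)) :
    F.land v h k = b k := by
  refine land_else hh (fun e => h0 (by rw [e])) (fun w hw e => h1 w hw (by rw [e])) ?_
  intro w hw hc e
  apply h1 w hw
  rw [e]
  exact (F.child w (F.anc_sub v hh.mem hw) hc).1

theorem land_hp {S : Sys A V H L} {b : H → A} {F : Forest S b} {v w : V} {h : H}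
    (hh : F.Bad v h) (hw : w ∈ F.anc v) (hc : dev S b (S.lp (F.arr w)) ≠ 0) :
    F.land v h (F.hp w) = b (F.arr (S.vx (F.hp w))) := by
  have hne := (F.par_mem hh.mem hw hc).2
  have n1 : F.hp w ≠ F.arr v := by
    intro e
    apply hne
    rw [e]
    exact F.arr_vx v hh.mem
  have n2 : F.hp w ≠ h := by
    intro e
    apply hne
    rw [e]
    exact hh.vx
  rw [land_apply, Equiv.swap_apply_of_ne_of_ne n1 n2, F.pi_hp hh.mem hw hc]

theorem land_arr {S : Sys A V H L} {b : H → A} {F : Forest S b} {v w : V} {h : H}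
    (hh : F.Bad v h) (hw : w ∈ F.anc v) :
    ∃ x, S.vx x = w ∧ b x ≠ b (F.arr w) ∧ F.land v h (F.arr w) = b x := by
  by_cases hwv : w = v
  · subst hwv
    refine ⟨h, hh.vx, hh.ne, ?_⟩
    rw [land_apply, Equiv.swap_apply_left, F.pi_fix hh.mem (Or.inr hh.vx)]
  · obtain ⟨w', hw', hc', hx', hp'⟩ := F.pi_arr hh.mem hw hwv
    have hwX : w ∈ F.X := F.anc_sub v hh.mem hw
    have hw'X : w' ∈ F.X := F.anc_sub v hh.mem hw'
    refine ⟨F.hp w', hx', ?_, ?_⟩
    · have := (F.child w' hw'X hc').2.2.1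
      rwa [hx'] at this
    · have n1 : F.arr w ≠ F.arr v := by
        intro e
        apply hwv
        rw [← F.arr_vx w hwX, e, F.arr_vx v hh.mem]
      have n2 : F.arr w ≠ h := by
        intro e
        apply hwv
        rw [← F.arr_vx w hwX, e, hh.vx]
      rw [land_apply, Equiv.swap_apply_of_ne_of_ne n1 n2, hp']

theorem resonance {S : Sys A V H L} (hS : Good S) {b : H → A} (hb : Min S b)
    {F : Forest S b} {v : V} {h : H} (hh : F.Bad v h) :
    dev S b (S.lp h) = S.sg h • (b h - b (F.arr v)) := by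
  have h0 := (land_spec hS hb hh).2.2.2.1
  have hsame : ∀ k, S.lp k = S.lp h → k ≠ h → F.land v h k = b k := by
    intro k hk hkh
    refine land_else hh hkh (fun w hw e => hh.off w hw (by rw [← hk, e])) ?_
    intro w hw hc e
    apply hh.off w hw
    rw [← hk, e]
    exact (F.child w (F.anc_sub v hh.mem hw) hc).1
  have hdiff : dev S b (S.lp h) - dev S (F.land v h) (S.lp h)
      = S.sg h • (b h - b (F.arr v)) := by
    unfold dev
    rw [sub_sub_sub_cancel_right, ← Finset.sum_sub_distrib]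
    rw [Finset.sum_eq_single h]
    · rw [if_pos rfl, if_pos rfl, land_h hh, smul_sub]
    · intro k _ hk
      by_cases hl : S.lp k = S.lp h
      · rw [if_pos hl, if_pos hl, hsame k hl hk, sub_self]
      · rw [if_neg hl, if_neg hl, sub_self]
    · intro hn
      exact absurd (Finset.mem_univ h) hn
  rw [← hdiff, h0, sub_zero]

/-- the half-edge of a child loop at its parent is bad there -/
theorem bad_hp {S : Sys A V H L} {b : H → A} (F : Forest S b) {v : V} (hv : v ∈ F.X)
    (hc : dev S b (S.lp (F.arr v)) ≠ 0) : F.Bad (S.vx (F.hp v)) (F.hp v) := by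
  obtain ⟨c1, c2, c3, -, c5, -, -⟩ := F.child v hv hc
  refine ⟨c2, rfl, c3, ?_⟩
  intro w hw e
  have hwX : w ∈ F.X := F.anc_sub _ c2 hw
  have := F.inj v hv w hwX hc (by rw [← c1]; exact e)
  subst this
  exact c5 hw

/-- the second alternative in `Forest.typ` -/
theorem bad_third {S : Sys A V H L} {b : H → A} (F : Forest S b) {v : V} (hv : v ∈ F.X)
    (hc : dev S b (S.lp (F.arr v)) ≠ 0) {h : H} (hl : S.lp h = S.lp (F.arr v))
    (hX : S.vx h ∈ F.X) (hn : b h ≠ b (F.arr (S.vx h))) (hv' : v ∉ F.anc (S.vx h)) :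
    F.Bad (S.vx h) h := by
  refine ⟨hX, rfl, hn, ?_⟩
  intro w hw e
  have hwX : w ∈ F.X := F.anc_sub _ hX hw
  have := F.inj v hv w hwX hc (by rw [← hl]; exact e)
  subst this
  exact hv' hw

/-- if all half-edges of `l` at vertices of X are bad, `l` is not a forest loop -/
theorem bad_of_all {S : Sys A V H L} {b : H → A} (F : Forest S b) {h : H}
    (hX : S.vx h ∈ F.X)
    (hall : ∀ k, S.lp k = S.lp h → S.vx k ∈ F.X → b k ≠ b (F.arr (S.vx k))) :
    F.Bad (S.vx h) h := by
  refine ⟨hX, rfl, hall h rfl hX, ?_⟩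
  intro w hw e
  have hwX : w ∈ F.X := F.anc_sub _ hX hw
  have hvw := F.arr_vx w hwX
  have := hall (F.arr w) e.symm (by rw [hvw]; exact hwX)
  rw [hvw] at this
  exact this rfl

end Pool.Agent.Helper15.OS
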