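import Pool.Agent.Helper15.OS.Land

/-!
OS-NOTFR.  After a landing run no triple of the path is fully resonant, and the other triples (except
the root loop) did not change.

`land_notFR`: w child on the path, g = lp (arr w), t = land v h, e = dev b g, s the common sign of g.
Suppose FR t g.  Let u = vx (hp w), κ = b (arr u).  `resonance` for `bad_hp`:
e = s • (b (hp w) - κ).  Labels of g in t: t (hp w) = κ (`land_hp`), t (arr w) = b x with vx x = w,
b x ≠ b (arr w) (`land_arr`), and t h3 = b h3 at the third half-edge (`land_else`: h3 is on the loop g,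
the half-edges of the path on the loop g are only arr w and hp w by `F.inj`; h3 ≠ h since
lp h ≠ g by `hh.off`).  So d := dev t g = e + s • (κ - b (hp w)) + s • (b x - b (arr w))
= s • (b x - b (arr w)).  T1 t (hp w) and b (hp w) is a label at u (use `same_forall`):
b (hp w) = κ or b (hp w) = κ - s • d; the first is excluded (`F.child`); so
b x = b (arr w) - s • e.  T1 t (arr w): every label at w is b x or b x - s • d = b (arr w).  Hence
T1 b (arr w).  `F.typ`: T1 b h3, or h3 is bad (`bad_third`) and resonance gives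
b (arr (vx h3)) = b h3 - s • e.  In both cases some k at the vertex of h3 has b k = b h3 - s • e.
T1 t h3: b k = b h3 or b k = b h3 - s • d = b h3 + s • e.  So e = 0 or 2 e = 0: contradiction.

`land_FR`: l not the root loop; l is not closed in t so l ≠ lp h; not a path loop by `land_notFR`
(a path loop which is not the root loop is the loop of a child); so its labels are unchanged
(`land_off`) and `FR_congr` applies.
-/

namespace Pool.Agent.Helper15.OS

open Finset
open scoped Classical

variable {A V H L : Type*} [AddCommGroup A] [Fintype H] [Fintype L]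

theorem land_notFR {S : Sys A V H L} (hS : Good S) {b : H → A} (hb : Min S b)
    {F : Forest S b} {v w : V} {h : H} (hh : F.Bad v h) (hw : w ∈ F.anc v)
    (hc : dev S b (S.lp (F.arr w)) ≠ 0) : ¬ FR S (F.land v h) (S.lp (F.arr w)) := by
  rintro ⟨htri, hdt, hT⟩
  have hwX : w ∈ F.X := F.anc_sub v hh.mem hw
  obtain ⟨hlp, huX, hne, -, -, -, -⟩ := F.child w hwX hc
  have hpne : F.hp w ≠ F.arr w := F.hp_ne_arr hwX hc
  obtain ⟨-, hsg1, g3, hg3l, hg3a, hg3p, hv3a, hv3p, hsg3, hall⟩ :=
    triple_pair htri hlp hpne.symm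
  have hsame : Same S b (F.land v h) := (land_spec hS hb hh).2.1
  have hsame' : Same S (F.land v h) b := same_symm hsame
  -- labels
  have t1 : F.land v h (F.hp w) = b (F.arr (S.vx (F.hp w))) := land_hp hh hw hc
  obtain ⟨x, hx, hxne, t2⟩ := land_arr hh hw
  have t3 : F.land v h g3 = b g3 := by
    refine land_else hh ?_ ?_ ?_
    · rintro rfl
      exact hh.off w hw hg3l
    · intro w' hw' hgw
      have hw'X := F.anc_sub v hh.mem hw'
      have : S.lp (F.arr w) = S.lp (F.arr w') := by rw [← hgw, hg3l]
      have hww := F.inj w hwX w' hw'X hc this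
      apply hg3a
      rw [hgw, hww]
    · intro w' hw' hc' hgw
      have hw'X := F.anc_sub v hh.mem hw'
      have h1 : S.lp (F.hp w') = S.lp (F.arr w') := (F.child w' hw'X hc').1
      have : S.lp (F.arr w) = S.lp (F.arr w') := by rw [← h1, ← hgw, hg3l]
      have hww := F.inj w hwX w' hw'X hc this
      apply hg3p
      rw [hgw, hww]
  -- deviations
  have db := dev_triple S b (l := S.lp (F.arr w)) hpne.symm hg3a.symm hg3p.symm
    (fun k => ⟨fun hk => hall k hk, by
      rintro (rfl | rfl | rfl)
      · rfl
      · exact hlp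
      · exact hg3l⟩)
  have dt := dev_triple S (F.land v h) (l := S.lp (F.arr w)) hpne.symm hg3a.symm hg3p.symm
    (fun k => ⟨fun hk => hall k hk, by
      rintro (rfl | rfl | rfl)
      · rfl
      · exact hlp
      · exact hg3l⟩)
  have hres := resonance hS hb (bad_hp F hwX hc)
  rw [hlp, ← hsg1] at hres
  rw [t1, t2, t3] at dt
  rw [← hsg1, hsg3] at db dt
  set s := S.sg (F.arr w) with hs
  set e := dev S b (S.lp (F.arr w)) with he
  set d := dev S (F.land v h) (S.lp (F.arr w)) with hd
  set κ := b (F.arr (S.vx (F.hp w))) with hκ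
  have hd1 : d = s • (b x - b (F.arr w)) := by
    have h1 : s • b (F.hp w) - s • κ = e := by rw [← smul_sub]; exact hres.symm
    rw [smul_sub]
    have h2 : d - e = s • b x + s • κ - s • b (F.arr w) - s • b (F.hp w) := by
      rw [dt, db]; abel
    have h3 : d = (d - e) + e := by abel
    rw [h3, h2]
    rw [← h1]
    abel
  have hsd : s • d = b x - b (F.arr w) := by
    rw [hd1, hs, smul_sg hS]
  -- type of hp w
  have hT1 := hT (F.hp w) hlp
  have hTb1 : ∀ k, S.vx k = S.vx (F.hp w) → b k = κ ∨ b k = κ - s • d := by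
    refine same_forall (P := fun a => a = κ ∨ a = κ - s • d) hsame' ?_
    intro k hk
    have := hT1.1 k hk
    rw [t1, hlp, ← hsg1] at this
    exact this
  have hbp : b (F.hp w) = κ - s • d := by
    rcases hTb1 (F.hp w) rfl with h1 | h1
    · exact absurd h1 hne
    · exact h1
  have hse : s • e = b (F.hp w) - κ := by
    rw [hres, hs, smul_sg hS]
  have hsde : s • d = - (s • e) := by
    rw [hse, hbp]; abel
  have hbx : b x = b (F.arr w) - s • e := by
    have : b x = s • d + b (F.arr w) := by rw [hsd]; abel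
    rw [this, hsde]; abel
  -- type of arr w
  have hT2 := hT (F.arr w) rfl
  have hTb2 : ∀ k, S.vx k = S.vx (F.arr w) → b k = b x ∨ b k = b x - s • d := by
    refine same_forall (P := fun a => a = b x ∨ a = b x - s • d) hsame' ?_
    intro k hk
    have := hT2.1 k hk
    rw [t2] at this
    exact this
  have hT1b : T1 S b (F.arr w) := by
    constructor
    · intro k hk
      rcases hTb2 k hk with h1 | h1
      · right; rw [h1, hbx]
      · left; rw [h1, hsd]; abel
    · exact ⟨x, by rw [hx, F.arr_vx w hwX], hbx⟩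
  -- the third half-edge
  have hk : ∃ k, S.vx k = S.vx g3 ∧ b k = b g3 - s • e := by
    rcases F.typ w hwX hc g3 hg3l hg3a hg3p hT1b with h1 | ⟨h1, h2, h3⟩
    · obtain ⟨k, hk1, hk2⟩ := h1.2
      refine ⟨k, hk1, ?_⟩
      rw [hk2, hg3l, hsg3]
    · have hbad := bad_third F hwX hc hg3l h1 h2 h3
      have hr := resonance hS hb hbad
      refine ⟨F.arr (S.vx g3), F.arr_vx _ h1, ?_⟩
      rw [hg3l, hsg3] at hr
      have : s • e = b g3 - b (F.arr (S.vx g3)) := by
        rw [he, hr, hs, smul_sg hS]
      rw [this]; abel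
  obtain ⟨k, hk1, hk2⟩ := hk
  have hT3 := hT g3 hg3l
  have hTb3 : ∀ k, S.vx k = S.vx g3 → b k = b g3 ∨ b k = b g3 - s • d := by
    refine same_forall (P := fun a => a = b g3 ∨ a = b g3 - s • d) hsame' ?_
    intro k hk
    have := hT3.1 k hk
    rw [t3, hg3l, hsg3] at this
    exact this
  have hse0 : s • e = 0 := by
    rcases hTb3 k hk1 with h1 | h1
    · rw [hk2] at h1
      exact sub_eq_self.1 h1
    · rw [hk2, hsde, sub_neg_eq_add] at h1
      apply hS.two
      have h2 : b g3 - s • e + s • e = b g3 + s • e + s • e := by rw [h1]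
      rw [sub_add_cancel, add_assoc] at h2
      exact (left_eq_add.1 h2)
  exact hc (sg_smul_eq_zero hS (F.arr w) hse0)

theorem land_FR {S : Sys A V H L} (hS : Good S) {b : H → A} (hb : Min S b)
    {F : Forest S b} {v : V} {h : H} (hh : F.Bad v h) {l : L} (hl : FR S (F.land v h) l)
    (hr : l ≠ S.lp (F.rt v)) :
    FR S b l ∧ l ≠ S.lp h ∧ ∀ w ∈ F.anc v, l ≠ S.lp (F.arr w) := by
  obtain ⟨-, hsame, -, hclosed, -, -⟩ := land_spec hS hb hh
  have h1 : l ≠ S.lp h := by
    rintro rfl
    exact hl.2.1 hclosed
  have h2 : ∀ w ∈ F.anc v, l ≠ S.lp (F.arr w) := by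
    intro w hw hlw
    by_cases hc : dev S b (S.lp (F.arr w)) = 0
    · apply hr
      rw [hlw, F.root_eq hh.mem hw hc]
    · apply land_notFR hS hb hh hw hc
      rw [← hlw]; exact hl
  refine ⟨?_, h1, h2⟩
  refine (FR_congr hsame ?_).1 hl
  intro k hk
  exact land_off hh (by rw [hk]; exact h1) (fun w hw => by rw [hk]; exact h2 w hw)

end Pool.Agent.Helper15.OS
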