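import Pool.Agent.Helper15.OS.Bin
import Pool.Agent.Helper15.OS.ForestL

/-!
OS-RUN.  The token run along the path to `v`, from any minimal labelling `t` which agrees with `b` on
the half-edges of the path and in which the root loop is closed.  Induction `Forest.ind` on v (for
all t).  Root: pi = 1.  Child v with parent u: by induction (anc u ⊆ anc v, rt u = rt v) the labelling
t ∘ pi u is minimal, the loop of arr u is closed in it; at u it has the labels
(t ∘ pi u) (arr u) = t (arr u) = b (arr u) and (t ∘ pi u) (hp v) = t (hp v) = b (hp v) (`pi_fix`),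
they are different, so `move` applies with h = arr u, k = hp v, and
t ∘ pi v = (t ∘ pi u) ∘ swap (arr u) (hp v).  Note lp (hp v) = lp (arr v).
-/

namespace Pool.Agent.Helper15.OS

open Finset
open scoped Classical

variable {A V H L : Type*} [AddCommGroup A] [Fintype H] [Fintype L]

theorem run {S : Sys A V H L} (hS : Good S) {b : H → A} (F : Forest S b) {v : V} (hv : v ∈ F.X)
    {t : H → A} (ht : Min S t)
    (hag : ∀ w ∈ F.anc v, dev S b (S.lp (F.arr w)) ≠ 0 →
      t (F.hp w) = b (F.hp w) ∧ t (F.arr (S.vx (F.hp w))) = b (F.arr (S.vx (F.hp w))))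
    (hr : dev S t (S.lp (F.rt v)) = 0) :
    Reach S t (t ∘ F.pi v) ∧ Same S t (t ∘ F.pi v) ∧ Min S (t ∘ F.pi v) ∧
      dev S (t ∘ F.pi v) (S.lp (F.arr v)) = 0 ∧
      (dev S b (S.lp (F.arr v)) ≠ 0 →
        dev S (t ∘ F.pi v) (S.lp (F.rt v)) ≠ 0 ∧ dev S t (S.lp (F.arr v)) ≠ 0) ∧
      ∀ l, l ≠ S.lp (F.rt v) → l ≠ S.lp (F.arr v) →
        (dev S (t ∘ F.pi v) l = 0 ↔ dev S t l = 0) := by
  revert hag hr
  revert v
  intro v hv
  refine F.ind (P := fun v => (∀ w ∈ F.anc v, dev S b (S.lp (F.arr w)) ≠ 0 →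
      t (F.hp w) = b (F.hp w) ∧ t (F.arr (S.vx (F.hp w))) = b (F.arr (S.vx (F.hp w)))) →
    dev S t (S.lp (F.rt v)) = 0 →
    (Reach S t (t ∘ F.pi v) ∧ Same S t (t ∘ F.pi v) ∧ Min S (t ∘ F.pi v) ∧
      dev S (t ∘ F.pi v) (S.lp (F.arr v)) = 0 ∧
      (dev S b (S.lp (F.arr v)) ≠ 0 →
        dev S (t ∘ F.pi v) (S.lp (F.rt v)) ≠ 0 ∧ dev S t (S.lp (F.arr v)) ≠ 0) ∧
      ∀ l, l ≠ S.lp (F.rt v) → l ≠ S.lp (F.arr v) →
        (dev S (t ∘ F.pi v) l = 0 ↔ dev S t l = 0))) ?_ ?_ v hv
  · -- root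
    intro v hv h0 _ hr
    obtain ⟨-, hrt, hpi⟩ := F.root v hv h0
    have e : t ∘ F.pi v = t := by rw [hpi]; rfl
    rw [e]
    refine ⟨Relation.ReflTransGen.refl, same_refl S t, ht, by rw [← hrt]; exact hr,
      fun h => absurd h0 h, fun l _ _ => Iff.rfl⟩
  · -- child
    intro v hv h1 IH hag hr
    obtain ⟨hlp, huX, hbne, hanc, hvn, hrt, hpi⟩ := F.child v hv h1
    set u := S.vx (F.hp v) with hu
    obtain ⟨iR, iS, iM, iC, iD, iE⟩ := IH
      (fun w hw hc => hag w (by rw [hanc]; exact Finset.mem_insert_of_mem hw) hc)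
      (by rw [← hrt]; exact hr)
    have hagv := hag v (by rw [hanc]; exact Finset.mem_insert_self _ _) h1
    rw [← hu] at hagv
    have hau : S.vx (F.arr u) = u := F.arr_vx u huX
    have f1 : F.pi u (F.arr u) = F.arr u := F.pi_fix huX (Or.inr hau)
    have f2 : F.pi u (F.hp v) = F.hp v := F.pi_fix huX (Or.inr hu.symm)
    have e1 : (t ∘ F.pi u) (F.arr u) = b (F.arr u) := by
      simp only [Function.comp_apply, f1]; exact hagv.2
    have e2 : (t ∘ F.pi u) (F.hp v) = b (F.hp v) := by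
      simp only [Function.comp_apply, f2]; exact hagv.1
    have hne : (t ∘ F.pi u) (F.arr u) ≠ (t ∘ F.pi u) (F.hp v) := by
      rw [e1, e2]; exact hbne.symm
    have hvv : S.vx (F.arr u) = S.vx (F.hp v) := by rw [hau, hu]
    obtain ⟨m1, m2, m3, m4, m5, m6, m7, m8⟩ := move hS iM hvv iC hne
    have enew : t ∘ F.pi v = (t ∘ F.pi u) ∘ Equiv.swap (F.arr u) (F.hp v) := by
      rw [hpi]; rfl
    rw [enew]
    have hrc : dev S b (S.lp (F.rt u)) = 0 := F.rt_closed huX
    have hrv : S.lp (F.rt v) ≠ S.lp (F.arr v) := by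
      intro h
      apply h1
      rw [← h, hrt]; exact hrc
    refine ⟨iR.tail m3, same_trans iS m4, m5, by rw [← hlp]; exact m6, fun _ => ?_, ?_⟩
    · by_cases h0 : dev S b (S.lp (F.arr u)) = 0
      · obtain ⟨-, hrtu, hpiu⟩ := F.root u huX h0
        refine ⟨by rw [hrt, hrtu]; exact m7, ?_⟩
        have e : t ∘ F.pi u = t := by rw [hpiu]; rfl
        rw [e, hlp] at m2
        exact m2
      · obtain ⟨d1, d2⟩ := iD h0
        constructor
        · by_cases hx : S.lp (F.rt v) = S.lp (F.arr u)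
          · rw [hx]; exact m7
          · rw [m8 _ hx (by rw [hlp]; exact hrv), hrt]
            exact d1
        · intro hz
          apply m2
          rw [hlp]
          exact (iE _ (by rw [← hrt]; exact hrv.symm) (by rw [← hlp]; exact m1.symm)).2 hz
    · intro l hl1 hl2
      by_cases hx : l = S.lp (F.arr u)
      · by_cases h0 : dev S b (S.lp (F.arr u)) = 0
        · obtain ⟨-, hrtu, -⟩ := F.root u huX h0
          exact absurd (by rw [hx, hrt, hrtu]) hl1
        · obtain ⟨d1, d2⟩ := iD h0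
          rw [hx]
          exact ⟨fun h => absurd h m7, fun h => absurd h d2⟩
      · rw [m8 l hx (by rw [hlp]; exact hl2)]
        exact iE l (by rw [← hrt]; exact hl1) hx

end Pool.Agent.Helper15.OS
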