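import Pool.Agent.Helper15.OS.Dev

/-!
OS-SAME.  The relation `Same` (rearrangement of the labels at the vertices) is an equivalence, the
set of labels at a vertex is invariant, optimal labellings exist (minimise `ncl` over the class,
then `Psi` over the minimisers; both are natural numbers).
-/

namespace Pool.Agent.Helper15.OS

open Finset
open scoped Classical

variable {A V H L : Type*} [AddCommGroup A] [Fintype H] [Fintype L]

theorem same_refl (S : Sys A V H L) (b : H → A) : Same S b b :=
  ⟨1, fun _ => rfl, rfl⟩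

theorem same_symm {S : Sys A V H L} {b b' : H → A} (h : Same S b b') : Same S b' b := by
  obtain ⟨w, hw, rfl⟩ := h
  refine ⟨w⁻¹, fun h => ?_, ?_⟩
  · rw [← hw (w⁻¹ h)]; simp
  · funext h; simp

theorem same_trans {S : Sys A V H L} {b b' b'' : H → A} (h : Same S b b') (h' : Same S b' b'') :
    Same S b b'' := by
  obtain ⟨w, hw, rfl⟩ := h
  obtain ⟨w', hw', rfl⟩ := h'
  refine ⟨w * w', fun h => ?_, ?_⟩
  · rw [Equiv.Perm.mul_apply, hw, hw']
  · funext h; simp

theorem same_swap {S : Sys A V H L} (b : H → A) {h k : H} (hv : S.vx h = S.vx k) :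
    Same S b (b ∘ Equiv.swap h k) := by
  refine ⟨Equiv.swap h k, fun g => ?_, rfl⟩
  by_cases h1 : g = h
  · subst h1; rw [Equiv.swap_apply_left, hv]
  · by_cases h2 : g = k
    · subst h2; rw [Equiv.swap_apply_right, hv]
    · rw [Equiv.swap_apply_of_ne_of_ne h1 h2]

/-- the labels at a vertex are the same set -/
theorem same_forall {S : Sys A V H L} {b b' : H → A} (h : Same S b b') {z : V} {P : A → Prop}
    (hP : ∀ k, S.vx k = z → P (b k)) : ∀ k, S.vx k = z → P (b' k) := by
  obtain ⟨w, hw, rfl⟩ := h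
  intro k hk
  exact hP (w k) (by rw [hw, hk])

theorem same_exists {S : Sys A V H L} {b b' : H → A} (h : Same S b b') {z : V} {P : A → Prop}
    (hP : ∃ k, S.vx k = z ∧ P (b k)) : ∃ k, S.vx k = z ∧ P (b' k) := by
  by_contra hcon
  push Not at hcon
  obtain ⟨k, hk, hPk⟩ := hP
  exact same_forall (same_symm h) (P := fun a => ¬ P a) hcon k hk hPk

/-- if the labels of the loop of `h` are unchanged, its type is unchanged -/
theorem T1_congr {S : Sys A V H L} {b b' : H → A} (h : Same S b b') {k : H}
    (hk : ∀ g, S.lp g = S.lp k → b' g = b g) : T1 S b' k ↔ T1 S b k := by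
  unfold T1
  rw [dev_congr S hk, hk k rfl]
  constructor
  · rintro ⟨h1, h2⟩
    refine ⟨?_, ?_⟩
    · exact same_forall (same_symm h)
        (P := fun a => a = b k ∨ a = b k - S.sg k • dev S b (S.lp k)) h1
    · exact same_exists (same_symm h) (P := fun a => a = b k - S.sg k • dev S b (S.lp k)) h2
  · rintro ⟨h1, h2⟩
    refine ⟨?_, ?_⟩
    · exact same_forall h (P := fun a => a = b k ∨ a = b k - S.sg k • dev S b (S.lp k)) h1
    · exact same_exists h (P := fun a => a = b k - S.sg k • dev S b (S.lp k)) h2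

theorem FR_congr {S : Sys A V H L} {b b' : H → A} (h : Same S b b') {l : L}
    (hk : ∀ g, S.lp g = l → b' g = b g) : FR S b' l ↔ FR S b l := by
  unfold FR
  rw [dev_congr S hk]
  refine and_congr_right fun _ => and_congr_right fun _ => ?_
  refine forall_congr' fun g => ?_
  refine imp_congr_right fun hg => ?_
  exact T1_congr h (fun g' hg' => hk g' (hg'.trans hg))

theorem exists_opt (S : Sys A V H L) (b0 : H → A) : ∃ b, Same S b0 b ∧ Opt S b := by
  -- minimise ncl
  have h1 : ∃ b, Same S b0 b ∧ Min S b := by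
    obtain ⟨b, hb, hmin⟩ := WellFounded.has_min (measure (ncl S)).wf {b | Same S b0 b}
      ⟨b0, same_refl S b0⟩
    refine ⟨b, hb, fun b' hb' => ?_⟩
    have := hmin b' (same_trans hb hb')
    exact not_lt.1 this
  obtain ⟨b1, hb1, hm1⟩ := h1
  obtain ⟨b, hb, hmin⟩ := WellFounded.has_min (measure (Psi S)).wf
    {b | Same S b0 b ∧ Min S b} ⟨b1, hb1, hm1⟩
  refine ⟨b, hb.1, hb.2, fun b' hb' hb'm => ?_⟩
  have := hmin b' ⟨same_trans hb.1 hb', hb'm⟩
  exact not_lt.1 this

end Pool.Agent.Helper15.OS
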