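import Pool.Agent.Helper15.OS.Up
import Pool.Agent.Helper15.OS.Five
import Pool.Agent.Helper15.OS.Roots

/-!
OS-SIX.  No edge with two bad half-edges.

`bin_eq`: at z ∈ X three labels: if the token can be at z with label b (arr z) + D1 (closed loop) and
x is a half-edge at z with b x ≠ b (arr z), then b x = b (arr z) + D1 (`binary` with `run_spec`).

`six_aux` (v2 ∉ anc v1): D1 = b h1 - b (arr v1), D2 = b h2 - b (arr v2), both ≠ 0.  `resonance` twice:
sg h1 • D1 = sg h2 • D2 and sg h1 + sg h2 = 0, so D1 = - D2.  We show D1 = D2, hence 2 D2 = 0,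
contradiction.  r := root loop, the same for both (`twoRoots`), an edge (`five`, `Good.typ`).
Case A: v1 ∈ anc v2.  By `anc_ind` (or contradiction) there is a child w ∈ anc v2, w ∉ anc v1 with
u = vx (hp w) ∈ anc v1 (start at v2 ∉ anc v1, go up; v1 itself is on the way).  w and v1 are comparable
in anc v2 (`anc_total`): w ∉ anc v1, so v1 ∈ anc w = insert w (anc u), v1 ≠ w, v1 ∈ anc u, u ∈ anc v1,
so u = v1 (`anc_antisymm`).  `up_common` and `bin_eq` with x = h1: b h1 = b (arr v1) + D2.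
Case B: v1 ∉ anc v2 and anc v1, anc v2 have a common vertex.  As before there are w ∈ anc v2 child,
w ∉ anc v1, u = vx (hp w) ∈ anc v1, and w' ∈ anc v1 child, w' ∉ anc v2, u' = vx (hp w') ∈ anc v2.
u = u': compare u and w' in anc v1: w' ∈ anc u ⊆ anc v2 is false, so u ∈ anc w' = insert w' (anc u'),
u ≠ w', u ∈ anc u'; symmetrically u' ∈ anc u.  `up_common` on both sides: labels b (arr u) + D2 and
b (arr u) + D1 of closed loops at u; `binary` with `run_spec` gives D1 = D2.
Case C: anc v1, anc v2 disjoint.  z1 = vx (rt v1), z2 = vx (rt v2), rt v1 ≠ rt v2 on the loop r.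
`up` for w = z2 (v2 side): t, h with label b (rt v2) + D2, labels of r in t those of land v1 h1:
at rt v2 = arr z2 the label is b (rt v2) (`land_else`), at rt v1 = arr z1 it is b x with x at z1,
b x ≠ b (rt v1) (`land_arr`).  `move` (h, rt v2): r is closed again:
sg (rt v1) • (b x - b (rt v1)) + sg (rt v2) • D2 = 0 (subtract dev b r = 0; `dev_edge` or
`dev_swap`), opposite signs, so b x - b (rt v1) = D2.  `up` for v1 side at w = z1 and `bin_eq`:
b x = b (rt v1) + D1.
`six`: if v1 = v2 = vx: land v1 h1 closes the edge with labels b (arr v1) at h1, b h2 at h2: P1.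
Otherwise v2 ∉ anc v1 or v1 ∉ anc v2 (`anc_antisymm`).
-/

namespace Pool.Agent.Helper15.OS

open Finset
open scoped Classical

variable {A V H L : Type*} [AddCommGroup A] [Fintype H] [Fintype L]

theorem bin_eq {S : Sys A V H L} (hS : Good S) {b : H → A} (hb : Min S b) {F : Forest S b}
    {z : V} (hz : z ∈ F.X) {D : A} (hD : D ≠ 0) {t : H → A} {h : H} (hA : AtUp F z D t h)
    {x : H} (hx : S.vx x = z) (hne : b x ≠ b (F.arr z)) : b x = b (F.arr z) + D := by
  obtain ⟨hR, hvx, hcl, hth, _⟩ := hA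
  obtain ⟨r1, r2, r3⟩ := run_spec hS hb F hz
  have hn : t h ≠ (b ∘ F.pi z) (F.arr z) := by
    rw [hth, r3]
    intro hcon
    exact hD (by simpa using hcon)
  have hv : S.vx h = S.vx (F.arr z) := by rw [hvx, F.arr_vx z hz]
  rcases binary hS hb hR r1 hv hcl r2 hn x (by rw [hx, hvx]) with h1 | h1
  · rw [h1, hth]
  · exact absurd (h1.trans r3) hne

/-- crossing from `anc v2` into `anc v1` -/
theorem exists_cross {S : Sys A V H L} {b : H → A} (F : Forest S b) {v1 v2 y : V}
    (h2 : v2 ∈ F.X) (hv : v2 ∉ F.anc v1) (hy2 : y ∈ F.anc v2) (hy1 : y ∈ F.anc v1) :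
    ∃ w ∈ F.anc v2, w ∉ F.anc v1 ∧ dev S b (S.lp (F.arr w)) ≠ 0 ∧
      S.vx (F.hp w) ∈ F.anc v1 := by
  by_contra hcon
  push Not at hcon
  have := F.anc_ind h2 (P := fun w => w ∉ F.anc v1) hv
    (fun w hw hc hP => hcon w hw hP hc) y hy2
  exact this hy1

theorem six_aux {S : Sys A V H L} (hS : Good S) {b : H → A} (hb : Opt S b) {F : Forest S b}
    {v1 v2 : V} {h1 h2 : H} (hh1 : F.Bad v1 h1) (hh2 : F.Bad v2 h2) (hl : S.lp h1 = S.lp h2)
    (hne : h1 ≠ h2) (he : IsEdge S (S.lp h1)) (hv : v2 ∉ F.anc v1) : False := by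
  have he2 : IsEdge S (S.lp h2) := hl ▸ he
  have hX1 := hh1.mem
  have hX2 := hh2.mem
  have hD1 : b h1 - b (F.arr v1) ≠ 0 := sub_ne_zero.2 hh1.ne
  have hD2 : b h2 - b (F.arr v2) ≠ 0 := sub_ne_zero.2 hh2.ne
  have hFR2 : ∀ w ∈ F.anc v2, dev S b (S.lp (F.arr w)) ≠ 0 → ¬ FR S b (S.lp (F.arr w)) :=
    fun w hw hc => noFR hS hb hh2 he2 hw hc
  have hFR1 : ∀ w ∈ F.anc v1, dev S b (S.lp (F.arr w)) ≠ 0 → ¬ FR S b (S.lp (F.arr w)) :=
    fun w hw hc => noFR hS hb hh1 he hw hc
  -- `D1 = - D2`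
  have hsum : (b h1 - b (F.arr v1)) + (b h2 - b (F.arr v2)) = 0 := by
    have e1 := resonance hS hb.1 hh1
    have e2 := resonance hS hb.1 hh2
    rw [hl] at e1
    have hs := (edge_pair he hl.symm hne).1
    have e3 : S.sg h1 • ((b h1 - b (F.arr v1)) + (b h2 - b (F.arr v2))) = 0 := by
      have hs' : S.sg h2 = - S.sg h1 := by linarith
      rw [e1] at e2
      rw [hs', neg_smul] at e2
      rw [smul_add, e2]
      exact neg_add_cancel _
    exact sg_smul_eq_zero hS h1 e3
  -- it suffices that `D1 = D2`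
  have hkey : b h1 - b (F.arr v1) = b h2 - b (F.arr v2) → False := by
    intro h
    rw [h] at hsum
    exact hD2 (hS.two _ hsum)
  by_cases hA : v1 ∈ F.anc v2
  · -- case A
    obtain ⟨w, hw, hw1, hc, hu⟩ := exists_cross F hX2 hv hA (F.self_mem hX1)
    have hwX : w ∈ F.X := F.anc_sub v2 hX2 hw
    have h3 : v1 ∈ F.anc w := by
      rcases F.anc_total hX2 hw hA with h | h
      · exact absurd h hw1
      · exact h
    rw [(F.child w hwX hc).2.2.2.1, Finset.mem_insert] at h3
    have h4 : v1 ∈ F.anc (S.vx (F.hp w)) := by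
      rcases h3 with h | h
      · exact absurd (h ▸ F.self_mem hX1 : w ∈ F.anc v1) hw1
      · exact h
    have h5 : v1 = S.vx (F.hp w) := F.anc_antisymm hX1 hu h4
    obtain ⟨t, h, hAt⟩ := up_common hS hb.1 hh1 hh2 hl hne hv hFR2 hw hw1 hc
    rw [← h5] at hAt
    have h6 := bin_eq hS hb.1 hX1 hD2 hAt hh1.vx hh1.ne
    exact hkey (by rw [h6]; abel)
  by_cases hB : ∃ y, y ∈ F.anc v1 ∧ y ∈ F.anc v2
  · -- case B
    obtain ⟨y, hy1, hy2⟩ := hB
    obtain ⟨w, hw, hw1, hc, hu⟩ := exists_cross F hX2 hv hy2 hy1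
    obtain ⟨w', hw', hw1', hc', hu'⟩ := exists_cross F hX1 hA hy1 hy2
    have hwX : w ∈ F.X := F.anc_sub v2 hX2 hw
    have hwX' : w' ∈ F.X := F.anc_sub v1 hX1 hw'
    have hu2 : S.vx (F.hp w) ∈ F.anc v2 := (F.par_mem hX2 hw hc).1
    have hu1' : S.vx (F.hp w') ∈ F.anc v1 := (F.par_mem hX1 hw' hc').1
    have hk1 : S.vx (F.hp w) ∈ F.anc (S.vx (F.hp w')) := by
      have h3 : S.vx (F.hp w) ∈ F.anc w' := by
        rcases F.anc_total hX1 hu hw' with h | h
        · exact h
        · exact absurd (F.anc_trans hX2 hu2 h) hw1'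
      rw [(F.child w' hwX' hc').2.2.2.1, Finset.mem_insert] at h3
      rcases h3 with h | h
      · exact absurd (h ▸ hu2) hw1'
      · exact h
    have hk2 : S.vx (F.hp w') ∈ F.anc (S.vx (F.hp w)) := by
      have h3 : S.vx (F.hp w') ∈ F.anc w := by
        rcases F.anc_total hX2 hu' hw with h | h
        · exact h
        · exact absurd (F.anc_trans hX1 hu1' h) hw1
      rw [(F.child w hwX hc).2.2.2.1, Finset.mem_insert] at h3
      rcases h3 with h | h
      · exact absurd (h ▸ hu1') hw1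
      · exact h
    have huX : S.vx (F.hp w) ∈ F.X := F.anc_sub v1 hX1 hu
    have huu : S.vx (F.hp w) = S.vx (F.hp w') := F.anc_antisymm huX hk2 hk1
    obtain ⟨t, h, hAt⟩ := up_common hS hb.1 hh1 hh2 hl hne hv hFR2 hw hw1 hc
    obtain ⟨t', h', hAt'⟩ := up_common hS hb.1 hh2 hh1 hl.symm hne.symm hA hFR1 hw' hw1' hc'
    rw [← huu] at hAt'
    obtain ⟨p, hp, hpb⟩ := reach_same hAt'.1
    have hx1 : b (p h') = b (F.arr (S.vx (F.hp w))) + (b h1 - b (F.arr v1)) := by
      rw [← hAt'.2.2.2.1, hpb]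
      rfl
    have hx2 : S.vx (p h') = S.vx (F.hp w) := by rw [hp, hAt'.2.1]
    have hx3 : b (p h') ≠ b (F.arr (S.vx (F.hp w))) := by
      rw [hx1]
      intro hcon
      exact hD1 (by simpa using hcon)
    have h6 := bin_eq hS hb.1 huX hD2 hAt hx2 hx3
    rw [hx1] at h6
    exact hkey (add_left_cancel h6)
  · -- case C
    push Not at hB
    have hr := twoRoots hS hb.1 hh1 hh2 hl
    have her : IsEdge S (S.lp (F.rt v2)) := by
      rcases hS.typ (S.lp (F.rt v2)) with h | h
      · exact h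
      · exact absurd h (five hS hb hh2 he2)
    have hz1 := F.rt_mem hX1
    have hz2 := F.rt_mem hX2
    have hz21 : S.vx (F.rt v2) ∉ F.anc v1 := fun h => hB _ h hz2
    have hz12 : S.vx (F.rt v1) ∉ F.anc v2 := hB _ hz1
    have hzX1 : S.vx (F.rt v1) ∈ F.X := F.anc_sub v1 hX1 hz1
    have hzX2 : S.vx (F.rt v2) ∈ F.X := F.anc_sub v2 hX2 hz2
    have hrne : F.rt v2 ≠ F.rt v1 := fun h => hz21 (h ▸ hz1)
    obtain ⟨t, h, hAt, _, hag, hlh⟩ := up hS hb.1 hh1 hh2 hl hne hv hFR2 _ hz2 hz21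
    obtain ⟨t1, k1, hAt1, _, _, _⟩ := up hS hb.1 hh2 hh1 hl.symm hne.symm hA hFR1 _ hz1 hz12
    have ha1 : F.arr (S.vx (F.rt v1)) = F.rt v1 := F.arr_rt hX1
    have ha2 : F.arr (S.vx (F.rt v2)) = F.rt v2 := F.arr_rt hX2
    -- labels of the root loop in `t`
    have ht2 : t (F.rt v2) = b (F.rt v2) := by
      rw [hag _ rfl]
      refine land_else hh1 ?_ ?_ ?_
      · intro hcon
        apply hz21
        rw [hcon, hh1.vx]
        exact F.self_mem hX1
      · intro w hw hcon
        apply hz21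
        rw [hcon, F.arr_vx w (F.anc_sub v1 hX1 hw)]
        exact hw
      · intro w hw hc hcon
        apply hz21
        rw [hcon]
        exact (F.par_mem hX1 hw hc).1
    obtain ⟨x, hx, hxne, hxl⟩ := land_arr hh1 hz1
    have ht1 : t (F.rt v1) = b x := by
      rw [hag _ hr, ← hxl, ha1]
    rw [AtUp, ha2] at hAt
    obtain ⟨aR, avx, acl, ath, _⟩ := hAt
    have htmin : Min S t := reach_min hS hb.1 aR
    have hmn : t h ≠ t (F.rt v2) := by
      rw [ath, ht2]
      intro hcon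
      exact hD2 (by simpa using hcon)
    obtain ⟨_, _, _, _, _, hm, _⟩ := move hS htmin avx acl hmn
    obtain ⟨hsg, hedge⟩ := edge_pair her hr hrne
    have hiff : ∀ g, S.lp g = S.lp (F.rt v2) ↔ g = F.rt v2 ∨ g = F.rt v1 := by
      intro g
      constructor
      · exact hedge g
      · rintro (h | h)
        · rw [h]
        · rw [h, hr]
    have d1 := dev_edge S (t ∘ Equiv.swap h (F.rt v2)) hrne hiff
    have d2 := dev_edge S b hrne hiff
    have hc0 : dev S b (S.lp (F.rt v2)) = 0 := F.rt_closed hX2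
    have hs1 : (t ∘ Equiv.swap h (F.rt v2)) (F.rt v2) = b (F.rt v2) + (b h2 - b (F.arr v2)) := by
      rw [Function.comp_apply, Equiv.swap_apply_right, ath]
    have hs2 : (t ∘ Equiv.swap h (F.rt v2)) (F.rt v1) = b x := by
      rw [Function.comp_apply, Equiv.swap_apply_of_ne_of_ne, ht1]
      · intro hcon
        exact hlh (by rw [← hcon, hr])
      · exact hrne.symm
    rw [hm, hs1, hs2] at d1
    rw [hc0] at d2
    have hsg' : S.sg (F.rt v1) = - S.sg (F.rt v2) := by linarith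
    rw [hsg', neg_smul] at d1 d2
    have d3 : S.sg (F.rt v2) • ((b h2 - b (F.arr v2)) - (b x - b (F.rt v1))) = 0 := by
      have d4 : S.sg (F.rt v2) • ((b h2 - b (F.arr v2)) - (b x - b (F.rt v1)))
          = (S.sg (F.rt v2) • (b (F.rt v2) + (b h2 - b (F.arr v2)))
              + -(S.sg (F.rt v2) • b x) - S.c (S.lp (F.rt v2)))
            - (S.sg (F.rt v2) • b (F.rt v2) + -(S.sg (F.rt v2) • b (F.rt v1))
              - S.c (S.lp (F.rt v2))) := by
        simp only [smul_sub, smul_add]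
        abel
      rw [d4, ← d1, ← d2, sub_zero]
    have d5 := sub_eq_zero.1 (sg_smul_eq_zero hS _ d3)
    have h6 := bin_eq hS hb.1 hzX1 hD1 hAt1 hx hxne
    rw [ha1] at h6
    apply hkey
    rw [d5, h6]
    abel

theorem six {S : Sys A V H L} (hS : Good S) {b : H → A} (hb : Opt S b) {F : Forest S b}
    {v1 v2 : V} {h1 h2 : H} (hh1 : F.Bad v1 h1) (hh2 : F.Bad v2 h2) (hl : S.lp h1 = S.lp h2)
    (hne : h1 ≠ h2) (he : IsEdge S (S.lp h1)) : False := by
  by_cases hv : v2 ∈ F.anc v1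
  · by_cases hv' : v1 ∈ F.anc v2
    · have hvv : v1 = v2 := F.anc_antisymm hh1.mem hv hv'
      subst hvv
      obtain ⟨_, _, hm, hc, _, _⟩ := land_spec hS hb.1 hh1
      have hvx : S.vx h1 = S.vx h2 := by rw [hh1.vx, hh2.vx]
      have hp1 := P1 hS hm hvx hc (by rw [← hl]; exact hc)
      rw [land_h hh1, land_else hh1 hne.symm] at hp1
      · exact hh2.ne hp1.symm
      · intro w hw hcon
        exact hh1.off w hw (by rw [hl, hcon])
      · intro w hw hcw hcon
        have hwX : w ∈ F.X := F.anc_sub v1 hh1.mem hw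
        exact hh1.off w hw (by rw [hl, hcon, (F.child w hwX hcw).1])
    · exact six_aux hS hb hh2 hh1 hl.symm hne.symm (hl ▸ he) hv'
  · exact six_aux hS hb hh1 hh2 hl hne he hv

end Pool.Agent.Helper15.OS
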