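import Pool.Agent.Helper15.OS.DLem

/-!
OS-UP.  An edge f with two bad half-edges h1 (at v1), h2 (at v2 ∉ anc v1), no FR triple on the path to
v2.  Starting from `land v1 h1` (f is closed there with label b h2 at v2) the token runs UP the path
from v2: `up` describes the labelling with the token arriving at w (half-edge h at w, closed loop,
label b (arr w) + D with D = b h2 - b (arr v2)), for all w on the path to v2 outside anc v1; all
loops of children on the rest of the path (from w to the root, outside anc v1) and the root loop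
have the labels of land v1 h1, the former those of b.
`anc_ind` for v2 with P w := w ∉ anc v1 → ∃ t h, ....  Start: t = land v1 h1, h = h2.  Step from w
(child) to u = vx (hp w) ∉ anc v1 (then w ∉ anc v1 by `par_mem`): g = lp (arr w).  If g is a triple,
`dLemma` gives FR b g, contradiction.  So g is an edge.  `move` in t (h, arr w): t' = t ∘ swap h
(arr w) closes g; dev b g = sg (hp w) • (b (hp w) - b (arr u)) (`resonance`, `bad_hp`), and
0 = dev t' g = dev b g + sg (arr w) • (t h - b (arr w)), opposite signs, so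
b (hp w) = b (arr u) + D.  New half-edge: hp w.
`up_step` is this step (from w to its parent, for both cases u ∈ anc v1 or not).
-/

namespace Pool.Agent.Helper15.OS

open Finset
open scoped Classical

variable {A V H L : Type*} [AddCommGroup A] [Fintype H] [Fintype L]

/-- the token at `w` coming from below with deviation `D` -/
def AtUp {S : Sys A V H L} {b : H → A} (F : Forest S b) (w : V) (D : A) (t : H → A) (h : H) :
    Prop :=
  Reach S b t ∧ S.vx h = w ∧ dev S t (S.lp h) = 0 ∧ t h = b (F.arr w) + D ∧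
    S.lp h ≠ S.lp (F.arr w)

theorem up_step {S : Sys A V H L} (hS : Good S) {b : H → A} (hb : Min S b) {F : Forest S b}
    {w : V} (hw : w ∈ F.X) (hc : dev S b (S.lp (F.arr w)) ≠ 0)
    (hFR : ¬ FR S b (S.lp (F.arr w))) {D : A} (hD : D ≠ 0) {t : H → A} {h : H}
    (hA : AtUp F w D t h) (hag : ∀ k, S.lp k = S.lp (F.arr w) → t k = b k) :
    AtUp F (S.vx (F.hp w)) D (t ∘ Equiv.swap h (F.arr w)) (F.hp w) := by
  obtain ⟨hR, hvx, hdev, ht, hne⟩ := hA
  obtain ⟨hlp, huX, hbne, hanc, hnot, hrt, hpi⟩ := F.child w hw hc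
  have hta : t (F.arr w) = b (F.arr w) := hag _ rfl
  have hn : t h ≠ t (F.arr w) := by
    rw [hta, ht]
    intro h0
    exact hD (by simpa using h0)
  have hvx' : S.vx h = S.vx (F.arr w) := by rw [hvx, F.arr_vx w hw]
  have hm := move hS (reach_min hS hb hR) hvx' hdev hn
  obtain ⟨m1, m2, m3, m4, m5, m6, m7, m8⟩ := hm
  have hpa : F.hp w ≠ F.arr w := F.hp_ne_arr hw hc
  have hph : F.hp w ≠ h := by
    intro h0
    apply hne
    rw [← h0, hlp]
  have hbad := bad_hp F hw hc
  have hedge : IsEdge S (S.lp (F.arr w)) := by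
    rcases hS.typ (S.lp (F.arr w)) with h0 | h0
    · exact h0
    · exfalso
      apply hFR
      refine dLemma hS hb F hw hc h0 hR hvx hdev ?_ hag
      rw [← hta]
      exact hn
  have hres := resonance hS hb hbad
  have hep := (edge_pair (S := S) (h := F.arr w) (k := F.hp w) hedge hlp (Ne.symm hpa)).1
  have hdt : dev S t (S.lp (F.arr w)) = dev S b (S.lp (F.arr w)) := dev_congr S hag
  have hsw := dev_swap S t h (F.arr w) (S.lp (F.arr w))
  rw [m6, if_neg hne, if_pos rfl, hdt, ← hlp, hres, hta, ht] at hsw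
  have hsg : S.sg (F.arr w) = - S.sg (F.hp w) := by omega
  have hz : S.sg (F.hp w) • (b (F.hp w) - b (F.arr (S.vx (F.hp w))) - D) = 0 := by
    rw [hsg] at hsw
    rw [hsw]
    rw [smul_sub, smul_sub, neg_smul]
    simp only [add_sub_cancel_left, add_zero]
    abel
  have hz' := sg_smul_eq_zero hS (F.hp w) hz
  refine ⟨Relation.ReflTransGen.tail hR m3, rfl, ?_, ?_, ?_⟩
  · rw [hlp]; exact m6
  · rw [Function.comp_apply, Equiv.swap_apply_of_ne_of_ne hph hpa, hag _ hlp]
    have := sub_eq_zero.1 hz'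
    rw [← this]
    abel
  · exact hbad.off _ (F.self_mem huX)

theorem up {S : Sys A V H L} (hS : Good S) {b : H → A} (hb : Min S b) {F : Forest S b}
    {v1 v2 : V} {h1 h2 : H} (hh1 : F.Bad v1 h1) (hh2 : F.Bad v2 h2) (hl : S.lp h1 = S.lp h2)
    (hne : h1 ≠ h2) (hv : v2 ∉ F.anc v1)
    (hFR : ∀ w ∈ F.anc v2, dev S b (S.lp (F.arr w)) ≠ 0 → ¬ FR S b (S.lp (F.arr w))) :
    ∀ w ∈ F.anc v2, w ∉ F.anc v1 → ∃ t h, AtUp F w (b h2 - b (F.arr v2)) t h ∧
      (∀ k, (∃ w' ∈ F.anc w, w' ∉ F.anc v1 ∧ dev S b (S.lp (F.arr w')) ≠ 0 ∧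
        S.lp k = S.lp (F.arr w')) → t k = b k) ∧
      (∀ k, S.lp k = S.lp (F.rt v2) → t k = F.land v1 h1 k) ∧ S.lp h ≠ S.lp (F.rt v2) := by
  have hv1X := hh1.mem
  have hv2X := hh2.mem
  have hrtc := F.rt_closed hv2X
  refine F.anc_ind hv2X (P := fun w => w ∉ F.anc v1 → ∃ t h, AtUp F w (b h2 - b (F.arr v2)) t h ∧
      (∀ k, (∃ w' ∈ F.anc w, w' ∉ F.anc v1 ∧ dev S b (S.lp (F.arr w')) ≠ 0 ∧
        S.lp k = S.lp (F.arr w')) → t k = b k) ∧
      (∀ k, S.lp k = S.lp (F.rt v2) → t k = F.land v1 h1 k) ∧ S.lp h ≠ S.lp (F.rt v2)) ?_ ?_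
  · intro _
    obtain ⟨l1, l2, l3, l4, l5, l6⟩ := land_spec hS hb hh1
    refine ⟨F.land v1 h1, h2, ⟨l1, hh2.vx, ?_, ?_, ?_⟩, ?_, ?_, ?_⟩
    · rw [← hl]; exact l4
    · rw [land_else hh1 (Ne.symm hne)]
      · abel
      · intro w hw h0
        apply hv
        have : S.vx h2 = w := by
          rw [h0]
          exact F.arr_vx w (F.anc_sub v1 hv1X hw)
        rw [← hh2.vx, this]
        exact hw
      · intro w hw hcw h0
        apply hv
        have := (F.par_mem hv1X hw hcw).1
        rw [← h0, hh2.vx] at this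
        exact this
    · exact hh2.off _ (F.self_mem hv2X)
    · rintro k ⟨w', hw', hw1, hcw, hk⟩
      apply land_off hh1
      · rw [hk, hl]
        exact Ne.symm (hh2.off w' hw')
      · intro w hw h0
        apply hw1
        rw [hk] at h0
        have := F.inj w' (F.anc_sub v2 hv2X hw') w (F.anc_sub v1 hv1X hw) hcw h0
        rw [this]
        exact hw
    · intro k _
      rfl
    · have h0 := hh2.off _ (F.rt_mem hv2X)
      rw [F.arr_rt hv2X] at h0
      exact h0
  · intro w hw hc hP hu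
    have hwX : w ∈ F.X := F.anc_sub v2 hv2X hw
    obtain ⟨hlp, huX, hbne, hanc, hnot, hrt, hpi⟩ := F.child w hwX hc
    have hw1 : w ∉ F.anc v1 := by
      intro h0
      exact hu (F.par_mem hv1X h0 hc).1
    obtain ⟨t, h, hA, hB, hC, hE⟩ := hP hw1
    have hag : ∀ k, S.lp k = S.lp (F.arr w) → t k = b k := fun k hk =>
      hB k ⟨w, F.self_mem hwX, hw1, hc, hk⟩
    have hD : b h2 - b (F.arr v2) ≠ 0 := sub_ne_zero.2 hh2.ne
    have hrw : S.lp (F.arr w) ≠ S.lp (F.rt v2) := by
      intro h0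
      apply hc
      rw [h0]
      exact hrtc
    refine ⟨t ∘ Equiv.swap h (F.arr w), F.hp w, up_step hS hb hwX hc (hFR w hw hc) hD hA hag,
      ?_, ?_, ?_⟩
    · rintro k ⟨w', hw', hw1', hcw, hk⟩
      have hsub : w' ∈ F.anc w := by
        rw [hanc]
        exact Finset.mem_insert_of_mem hw'
      have hkh : k ≠ h := by
        intro h0
        have h3 : dev S t (S.lp (F.arr w')) = dev S b (S.lp (F.arr w')) :=
          dev_congr S fun k' hk' => hB k' ⟨w', hsub, hw1', hcw, hk'⟩
        apply hcw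
        rw [← h3, ← hk, h0]
        exact hA.2.2.1
      have hka : k ≠ F.arr w := by
        intro h0
        rw [h0] at hk
        have := F.inj w hwX w' (F.anc_sub v2 hv2X (F.anc_trans hv2X hw hsub)) hc hk
        rw [← this] at hw'
        exact hnot hw'
      rw [Function.comp_apply, Equiv.swap_apply_of_ne_of_ne hkh hka]
      exact hB k ⟨w', hsub, hw1', hcw, hk⟩
    · intro k hk
      have hkh : k ≠ h := by
        intro h0
        apply hE
        rw [← h0]
        exact hk
      have hka : k ≠ F.arr w := by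
        intro h0
        apply hrw
        rw [← h0]
        exact hk
      rw [Function.comp_apply, Equiv.swap_apply_of_ne_of_ne hkh hka]
      exact hC k hk
    · rw [hlp]
      exact hrw

/-- the first common vertex is reached from below with deviation `D` -/
theorem up_common {S : Sys A V H L} (hS : Good S) {b : H → A} (hb : Min S b) {F : Forest S b}
    {v1 v2 : V} {h1 h2 : H} (hh1 : F.Bad v1 h1) (hh2 : F.Bad v2 h2) (hl : S.lp h1 = S.lp h2)
    (hne : h1 ≠ h2) (hv : v2 ∉ F.anc v1)
    (hFR : ∀ w ∈ F.anc v2, dev S b (S.lp (F.arr w)) ≠ 0 → ¬ FR S b (S.lp (F.arr w)))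
    {w : V} (hw : w ∈ F.anc v2) (hw1 : w ∉ F.anc v1) (hc : dev S b (S.lp (F.arr w)) ≠ 0) :
    ∃ t h, AtUp F (S.vx (F.hp w)) (b h2 - b (F.arr v2)) t h := by
  have hwX : w ∈ F.X := F.anc_sub v2 hh2.mem hw
  obtain ⟨t, h, hA, hB, hC, hE⟩ := up hS hb hh1 hh2 hl hne hv hFR w hw hw1
  have hD : b h2 - b (F.arr v2) ≠ 0 := sub_ne_zero.2 hh2.ne
  exact ⟨_, _, up_step hS hb hwX hc (hFR w hw hc) hD hA fun k hk =>
    hB k ⟨w, F.self_mem hwX, hw1, hc, hk⟩⟩

end Pool.Agent.Helper15.OS
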